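import Mathlib

/-!
Statements of the tasks of the project H443-UNIFDIM (uniform dimension theorem for the scaling
limits of the exploration path of critical bond percolation in its natural parametrisation).
-/

namespace H443U

open MeasureTheory Finset

/-- Sup-norm distance. -/
def sd (u v : ℤ × ℤ) : ℤ := max |u.1 - v.1| |u.2 - v.2|

/-- The weight of a radius. -/
noncomputable def w (m : ℤ) : ℝ := if m ≤ 0 then 1 else (m : ℝ) ^ (-(1/4) : ℝ)

/-- The radius of the point `v` of `S`: the minimum of `b v`, `r` and the distances from `v` to the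
other points of `S`. -/
def rad (b : ℤ × ℤ → ℤ) (r : ℤ) (S : Finset (ℤ × ℤ)) (v : ℤ × ℤ) : ℤ :=
  (insert (min (b v) r) ((S.erase v).image (sd v))).min' (insert_nonempty _ _)

/-- Deterministic uniform dimension theorem. -/
def TaskUnif : Prop := ∀ f : unitInterval → ℂ,
  (∀ β : ℝ, 0 < β → β < 4/7 → ∃ Λ : ℝ, ∀ s t : unitInterval,
    dist (f s) (f t) ≤ Λ * |(s : ℝ) - t| ^ β) →
  (∀ α : ℝ, 0 < α → α < 7/4 → ∃ Λ : ℝ, ∀ (z : ℂ) (r : ℝ), 0 < r →
    volume {s : unitInterval | dist (f s) z < r} ≤ ENNReal.ofReal (Λ * r ^ α)) →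
  ∀ E : Set unitInterval, dimH (f '' E) = 7/4 * dimH E

/-- The sum over `k` point sets in a square of side `r`. -/
def TaskSum : Prop := ∀ (k : ℕ) (B : ℝ), ∃ C : ℝ, 0 < C ∧
  ∀ (b : ℤ × ℤ → ℤ) (r : ℕ) (c d : ℤ) (Q : Finset (ℤ × ℤ)), 1 ≤ r →
    Q ⊆ Icc c (c + r) ×ˢ Icc d (d + r) →
    (∀ u v : ℤ × ℤ, b u ≤ b v + sd u v) →
    ∑ v ∈ Q, w (b v) ≤ B * (r : ℝ) ^ (7/4 : ℝ) →
    ∑ S ∈ Q.powersetCard k, ∏ v ∈ S, w (rad b r S v) ≤ C * (r : ℝ) ^ (7/4 * k : ℝ)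

end H443U
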