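import Pool.Agent.H984R4.NP.Two
import Pool.Agent.H443R3.UD.Stmts

/-!
The `k`-point bound for the vertices visited by the exploration path.
-/

namespace H443P

open H974 Finset H342P H984P H984N H443U

theorem okh : Ok (fun _ : Edg => (1/2:ℝ)) := fun _ => ⟨by norm_num, by norm_num⟩

/-- The edges of the box of radius `m` around `v`. -/
noncomputable def bxe (v : Vtx) (m : ℤ) : Finset Edg := RE (v.1 - m) (v.1 + m) (v.2 - m) (v.2 + m)

/-- Two arms from the vertex `v` to distance `m`. -/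
def Arm (v : Vtx) (m : ℤ) (F : Finset Edg) : Prop := ∃ q : Q4, Two v (face (v, q)) m (↑F : Set Edg)

/-- The vertex `v` is visited by the path. -/
def VV (D : Dm) (F : Finset Edg) (v : Vtx) : Prop := ∃ q : Q4, D.Vis F (v, q)

theorem arm_local {v : Vtx} {m : ℤ} (hm : 0 < m) (F : Finset Edg) {T : Finset Edg}
    (hT : bxe v m ⊆ T) : Arm v m F ↔ Arm v m (F ∩ T) := by
  unfold Arm
  exact exists_congr fun q => two_inter hm F hT

theorem arm_pr {C : ℝ} (hU : TwoUp C (1/4)) {D : Dm} {v : Vtx} {m : ℤ} (hm : 0 < m)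
    (hb : m ≤ D.bd v) : P D.edges (Arm v m) ≤ 4 * C * (m : ℝ) ^ (-(1/4) : ℝ) := by
  have h1 : P D.edges (Arm v m) ≤ ∑ q ∈ (Finset.univ : Finset Q4),
      P D.edges (fun F => Two v (face (v, q)) m (↑F : Set Edg)) := by
    refine le_trans (Pr_mono okh ?_) (Pr_exists_le okh D.edges (Finset.univ : Finset Q4)
      (fun q F => Two v (face (v, q)) m (↑F : Set Edg)))
    rintro F _ ⟨q, hq⟩
    exact ⟨q, Finset.mem_univ _, hq⟩
  refine h1.trans ?_
  have h2 : ∀ q ∈ (Finset.univ : Finset Q4),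
      P D.edges (fun F => Two v (face (v, q)) m (↑F : Set Edg)) ≤ C * (m : ℝ) ^ (-(1/4) : ℝ) :=
    fun q _ => two_pr1 hU (σ := (v, q)) hm hb
  refine (Finset.sum_le_sum h2).trans (le_of_eq ?_)
  rw [Finset.sum_const, Finset.card_univ, show Fintype.card Q4 = 4 from rfl, nsmul_eq_mul]
  push_cast
  ring

theorem w_pos (m : ℤ) : 0 < w m := by
  unfold w
  split_ifs with h
  · exact one_pos
  · exact Real.rpow_pos_of_pos (by exact_mod_cast (by omega : 0 < m)) _

theorem w_le_one (m : ℤ) : w m ≤ 1 := by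
  unfold w
  split_ifs with h
  · exact le_rfl
  · exact Real.rpow_le_one_of_one_le_of_nonpos (by exact_mod_cast (by omega : 1 ≤ m)) (by norm_num)

/-- Independence of the arms in disjoint boxes. -/
theorem arms_prod {C : ℝ} (hC : 0 < C) (hU : TwoUp C (1/4)) {D : Dm} (ρ : Vtx → ℤ)
    (T : Finset Vtx) (hb : ∀ v ∈ T, 0 < ρ v → ρ v ≤ D.bd v)
    (hd : ∀ u ∈ T, ∀ v ∈ T, u ≠ v → 0 < ρ u → 0 < ρ v → Disjoint (bxe u (ρ u)) (bxe v (ρ v))) :
    P D.edges (fun F => ∀ v ∈ T, 0 < ρ v → Arm v (ρ v) F) ≤ ∏ v ∈ T, ((4 * C + 1) * w (ρ v)) := by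
  classical
  induction T using Finset.induction_on with
  | empty =>
    rw [Finset.prod_empty]
    exact Pr_le_one okh _ _
  | insert a T ha ih =>
    have ih' := ih (fun v hv => hb v (Finset.mem_insert_of_mem hv))
      (fun u hu v hv => hd u (Finset.mem_insert_of_mem hu) v (Finset.mem_insert_of_mem hv))
    rw [Finset.prod_insert ha]
    by_cases hρ : 0 < ρ a
    · have hba := hb a (Finset.mem_insert_self _ _) hρ
      set U : Finset Edg := T.biUnion (fun v => if 0 < ρ v then bxe v (ρ v) else ∅) with hU'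
      have hUs : U ⊆ D.edges := by
        intro e he
        rw [hU', Finset.mem_biUnion] at he
        obtain ⟨v, hv, he⟩ := he
        split_ifs at he with h
        · exact one_box (hb v (Finset.mem_insert_of_mem hv) h) he
        · exact absurd he (Finset.notMem_empty _)
      have hdis : Disjoint (bxe a (ρ a)) U := by
        rw [hU', Finset.disjoint_biUnion_right]
        intro v hv
        split_ifs with h
        · exact hd a (Finset.mem_insert_self _ _) v (Finset.mem_insert_of_mem hv)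
            (fun h' => ha (h' ▸ hv)) hρ h
        · exact Finset.disjoint_empty_right _
      have hi : P D.edges (fun F => Arm a (ρ a) F ∧ ∀ v ∈ T, 0 < ρ v → Arm v (ρ v) F) =
          P D.edges (Arm a (ρ a)) * P D.edges (fun F => ∀ v ∈ T, 0 < ρ v → Arm v (ρ v) F) := by
        refine Pr_indep (S := bxe a (ρ a)) (T := U) (one_box hba) hUs hdis
          (fun F _ => arm_local hρ F (Finset.Subset.refl _)) (fun F _ => ?_)
        refine forall_congr' fun v => forall_congr' fun hv => forall_congr' fun hv' => ?_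
        refine arm_local hv' F ?_
        intro e he
        rw [hU', Finset.mem_biUnion]
        exact ⟨v, hv, by rw [if_pos hv']; exact he⟩
      have hmono : P D.edges (fun F => ∀ v ∈ insert a T, 0 < ρ v → Arm v (ρ v) F) ≤
          P D.edges (fun F => Arm a (ρ a) F ∧ ∀ v ∈ T, 0 < ρ v → Arm v (ρ v) F) :=
        Pr_mono okh fun F _ h => ⟨h a (Finset.mem_insert_self _ _) hρ,
          fun v hv => h v (Finset.mem_insert_of_mem hv)⟩
      refine hmono.trans ?_
      rw [hi]
      have h1 : P D.edges (Arm a (ρ a)) ≤ (4 * C + 1) * w (ρ a) := by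
        refine (arm_pr hU hρ hba).trans ?_
        have e : w (ρ a) = (ρ a : ℝ) ^ (-(1/4) : ℝ) := by
          unfold w; rw [if_neg (by omega)]
        rw [e]
        have : (0:ℝ) ≤ (ρ a : ℝ) ^ (-(1/4) : ℝ) :=
          Real.rpow_nonneg (by exact_mod_cast hρ.le) _
        nlinarith
      exact mul_le_mul h1 ih' (Pr_nonneg okh _ _)
        (mul_nonneg (by positivity) (w_pos _).le)
    · have hmono : P D.edges (fun F => ∀ v ∈ insert a T, 0 < ρ v → Arm v (ρ v) F) ≤
          P D.edges (fun F => ∀ v ∈ T, 0 < ρ v → Arm v (ρ v) F) :=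
        Pr_mono okh fun F _ h => fun v hv => h v (Finset.mem_insert_of_mem hv)
      refine hmono.trans (ih'.trans ?_)
      have e : w (ρ a) = 1 := by unfold w; rw [if_pos (by omega)]
      rw [e, mul_one]
      have hp : 0 ≤ ∏ v ∈ T, ((4 * C + 1) * w (ρ v)) :=
        Finset.prod_nonneg fun v _ => mul_nonneg (by positivity) (w_pos _).le
      nlinarith

theorem rad_le_b (b : ℤ × ℤ → ℤ) (r : ℤ) (S : Finset (ℤ × ℤ)) (v : ℤ × ℤ) : rad b r S v ≤ b v :=
  (Finset.min'_le _ _ (Finset.mem_insert_self _ _)).trans (min_le_left _ _)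

theorem rad_le_r (b : ℤ × ℤ → ℤ) (r : ℤ) (S : Finset (ℤ × ℤ)) (v : ℤ × ℤ) : rad b r S v ≤ r :=
  (Finset.min'_le _ _ (Finset.mem_insert_self _ _)).trans (min_le_right _ _)

theorem rad_le_sd (b : ℤ × ℤ → ℤ) (r : ℤ) {S : Finset (ℤ × ℤ)} {u v : ℤ × ℤ} (hu : u ∈ S)
    (h : u ≠ v) : rad b r S v ≤ H443U.sd v u :=
  Finset.min'_le _ _ (Finset.mem_insert_of_mem (Finset.mem_image.mpr
    ⟨u, Finset.mem_erase.mpr ⟨h, hu⟩, rfl⟩))

theorem w_half (m : ℤ) : w ((m - 1) / 2) ≤ 6 * w m := by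
  rcases le_or_gt m 0 with h | h
  · have e : w m = 1 := by unfold w; rw [if_pos h]
    rw [e]
    linarith [w_le_one ((m - 1) / 2)]
  · have em : w m = (m : ℝ) ^ (-(1/4) : ℝ) := by unfold w; rw [if_neg (by omega)]
    have hm : (0:ℝ) < m := by exact_mod_cast h
    rcases le_or_gt ((m - 1) / 2) 0 with h2 | h2
    · have e : w ((m - 1) / 2) = 1 := by unfold w; rw [if_pos h2]
      rw [e, em]
      have hm2 : (m : ℝ) ≤ 2 := by exact_mod_cast (by omega : m ≤ 2)
      have h3 : (2:ℝ) ^ (-(1/4) : ℝ) ≤ (m : ℝ) ^ (-(1/4) : ℝ) :=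
        Real.rpow_le_rpow_of_nonpos hm hm2 (by norm_num)
      have h4 : (1/2 : ℝ) ≤ (2:ℝ) ^ (-(1/4) : ℝ) := by
        calc (1/2 : ℝ) = (2:ℝ) ^ (-1 : ℝ) := by rw [Real.rpow_neg_one]; norm_num
          _ ≤ (2:ℝ) ^ (-(1/4) : ℝ) :=
            Real.rpow_le_rpow_of_exponent_le (by norm_num) (by norm_num)
      linarith
    · have e : w ((m - 1) / 2) = (((m - 1) / 2 : ℤ) : ℝ) ^ (-(1/4) : ℝ) := by
        unfold w; rw [if_neg (by omega)]
      rw [e, em]
      have h5 : (m : ℝ) / 6 ≤ (((m - 1) / 2 : ℤ) : ℝ) := by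
        have : m ≤ 6 * ((m - 1) / 2) := by omega
        have : (m : ℝ) ≤ 6 * (((m - 1) / 2 : ℤ) : ℝ) := by exact_mod_cast this
        linarith
      have h6 : (((m - 1) / 2 : ℤ) : ℝ) ^ (-(1/4) : ℝ) ≤ ((m : ℝ) / 6) ^ (-(1/4) : ℝ) :=
        Real.rpow_le_rpow_of_nonpos (by positivity) h5 (by norm_num)
      refine h6.trans ?_
      rw [Real.div_rpow hm.le (by norm_num)]
      have h7 : (1/6 : ℝ) ≤ (6:ℝ) ^ (-(1/4) : ℝ) := by
        calc (1/6 : ℝ) = (6:ℝ) ^ (-1 : ℝ) := by rw [Real.rpow_neg_one]; norm_num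
          _ ≤ (6:ℝ) ^ (-(1/4) : ℝ) :=
            Real.rpow_le_rpow_of_exponent_le (by norm_num) (by norm_num)
      have h8 : 0 ≤ (m : ℝ) ^ (-(1/4) : ℝ) := Real.rpow_nonneg hm.le _
      rw [div_le_iff₀ (by positivity)]
      nlinarith

/-- The `k`-point bound. -/
theorem kpoint {C : ℝ} (hC : 0 < C) (hU : TwoUp C (1/4)) {D : Dm} (hD : D.Ok) (r : ℤ)
    (S : Finset Vtx) :
    P D.edges (fun F => ∀ v ∈ S, VV D F v) ≤
      (6 * (4 * C + 1)) ^ S.card * ∏ v ∈ S, w (rad D.bd r S v) := by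
  classical
  set ρ : Vtx → ℤ := fun v => (rad D.bd r S v - 1) / 2 with hρ
  have hmono : P D.edges (fun F => ∀ v ∈ S, VV D F v) ≤
      P D.edges (fun F => ∀ v ∈ S, 0 < ρ v → Arm v (ρ v) F) := by
    refine Pr_mono okh fun F hF h v hv h0 => ?_
    obtain ⟨q, hq⟩ := h v hv
    refine ⟨q, vis_two hD hF hq h0 ?_⟩
    have h1 := rad_le_b D.bd r S v
    have h2 : ρ v = (rad D.bd r S v - 1) / 2 := rfl
    show ρ v ≤ D.bd v
    omega
  have h1 := arms_prod hC hU (D := D) ρ S (fun v hv h0 => by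
      have h1 := rad_le_b D.bd r S v
      have h2 : ρ v = (rad D.bd r S v - 1) / 2 := rfl
      omega)
    (fun u hu v hv huv h1 h2 => by
      have g1 := rad_le_sd D.bd r hv huv.symm
      have g2 := rad_le_sd D.bd r hu huv
      have e1 : ρ u = (rad D.bd r S u - 1) / 2 := rfl
      have e2 : ρ v = (rad D.bd r S v - 1) / 2 := rfl
      have hs : H443U.sd v u = H443U.sd u v := by
        unfold H443U.sd; rw [abs_sub_comm v.1, abs_sub_comm v.2]
      have g3 : ρ u + ρ v < H443U.sd u v := by omega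
      rw [Finset.disjoint_left]
      rintro ⟨x, y, t⟩ he1 he2
      unfold bxe at he1 he2
      unfold H443U.sd at g3
      rcases max_cases |u.1 - v.1| |u.2 - v.2| with ⟨hm, _⟩ | ⟨hm, _⟩
      · rw [hm] at g3
        rcases abs_cases (u.1 - v.1) with ⟨ha, _⟩ | ⟨ha, _⟩ <;> rw [ha] at g3 <;>
        cases t
        · rw [mem_RE_false] at he1 he2; omega
        · rw [mem_RE_true] at he1 he2; omega
        · rw [mem_RE_false] at he1 he2; omega
        · rw [mem_RE_true] at he1 he2; omega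
      · rw [hm] at g3
        rcases abs_cases (u.2 - v.2) with ⟨ha, _⟩ | ⟨ha, _⟩ <;> rw [ha] at g3 <;>
        cases t
        · rw [mem_RE_false] at he1 he2; omega
        · rw [mem_RE_true] at he1 he2; omega
        · rw [mem_RE_false] at he1 he2; omega
        · rw [mem_RE_true] at he1 he2; omega)
  refine hmono.trans (h1.trans ?_)
  have h2 : ∏ v ∈ S, ((4 * C + 1) * w (ρ v)) ≤
      ∏ v ∈ S, ((6 * (4 * C + 1)) * w (rad D.bd r S v)) := by
    refine Finset.prod_le_prod (fun v _ => mul_nonneg (by positivity) (w_pos _).le) fun v _ => ?_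
    have := w_half (rad D.bd r S v)
    have hK : 0 < 4 * C + 1 := by positivity
    calc (4 * C + 1) * w (ρ v) ≤ (4 * C + 1) * (6 * w (rad D.bd r S v)) :=
          mul_le_mul_of_nonneg_left this hK.le
      _ = _ := by ring
  refine h2.trans (le_of_eq ?_)
  rw [Finset.prod_mul_distrib, Finset.prod_const]

open Classical in
/-- Number of vertices of `Q` visited by the path. -/
noncomputable def NQ (D : Dm) (Q : Finset Vtx) (F : Finset Edg) : ℕ := (Q.filter (VV D F)).card

/-- Binomial moments of the number of visited vertices. -/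
theorem binom_moment {C : ℝ} (hC : 0 < C) (hU : TwoUp C (1/4)) {D : Dm} (hD : D.Ok) (r : ℤ)
    (Q : Finset Vtx) (k : ℕ) :
    E D.edges (fun F => ((NQ D Q F).choose k : ℝ)) ≤
      (6 * (4 * C + 1)) ^ k * ∑ S ∈ Q.powersetCard k, ∏ v ∈ S, w (rad D.bd r S v) := by
  classical
  have e : ∀ F : Finset Edg, ((NQ D Q F).choose k : ℝ) =
      ∑ S ∈ Q.powersetCard k, ind (∀ v ∈ S, VV D F v) := by
    intro F
    unfold NQ
    rw [← Finset.card_powersetCard]
    have : (Q.filter (VV D F)).powersetCard k =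
        (Q.powersetCard k).filter (fun S => ∀ v ∈ S, VV D F v) := by
      ext S
      rw [Finset.mem_filter, Finset.mem_powersetCard, Finset.mem_powersetCard]
      constructor
      · rintro ⟨h1, h2⟩
        exact ⟨⟨h1.trans (Finset.filter_subset _ _), h2⟩,
          fun v hv => (Finset.mem_filter.mp (h1 hv)).2⟩
      · rintro ⟨⟨h1, h2⟩, h3⟩
        exact ⟨fun v hv => Finset.mem_filter.mpr ⟨h1 hv, h3 v hv⟩, h2⟩
    rw [this, Finset.card_filter]
    push_cast
    refine Finset.sum_congr rfl fun S _ => ?_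
    by_cases h : ∀ v ∈ S, VV D F v
    · rw [if_pos h, ind_of h]
    · rw [if_neg h, ind_not_of h]
  rw [show (fun F => ((NQ D Q F).choose k : ℝ)) = fun F => ∑ S ∈ Q.powersetCard k,
    ind (∀ v ∈ S, VV D F v) from funext e]
  have h1 : E D.edges (fun F => ∑ S ∈ Q.powersetCard k, ind (∀ v ∈ S, VV D F v)) =
      ∑ S ∈ Q.powersetCard k, P D.edges (fun F => ∀ v ∈ S, VV D F v) :=
    Ex_sum _ _ _ _
  rw [h1, Finset.mul_sum]
  refine Finset.sum_le_sum fun S hS => ?_
  have h2 := kpoint hC hU hD r S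
  rw [(Finset.mem_powersetCard.mp hS).2] at h2
  exact h2

end H443P
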