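import Pool.Agent.H443R3.UD.Occ2
import Pool.Agent.H984R4.NP.Final2

/-!
The occupation bound for the scaling limits of the exploration path.
-/

namespace H443P

open H974 Finset H342P H984P H984N H443U MeasureTheory Filter Topology

/-- Curves with a small occupation measure at the scales above `r0`. -/
def OG (α Λ r0 : ℝ) : Set C(unitInterval, ℂ) :=
  {f | ∀ (z : ℂ) (r : ℝ), r0 ≤ r → 0 < r →
    volume {s : unitInterval | dist (f s) z < r} ≤ ENNReal.ofReal (Λ * r ^ α)}

theorem og_closed (α Λ r0 : ℝ) : IsClosed (OG α Λ r0) := by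
  rw [← isSeqClosed_iff_isClosed]
  intro u f hu huf z r hr0 hr
  have key : ∀ η : ℝ, 0 < η → volume {s : unitInterval | dist (f s) z < r - η} ≤
      ENNReal.ofReal (Λ * r ^ α) := by
    intro η hη
    obtain ⟨N, hN⟩ := Metric.tendsto_atTop.mp huf η hη
    refine (measure_mono ?_).trans (hu N z r hr0 hr)
    intro s hs
    have h1 : dist (u N s) (f s) ≤ dist (u N) f := ContinuousMap.dist_apply_le_dist s
    have h2 := dist_triangle (u N s) (f s) z
    have h3 := hN N le_rfl
    have h4 : dist (f s) z < r - η := hs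
    show dist (u N s) z < r
    linarith
  have hU : {s : unitInterval | dist (f s) z < r} =
      ⋃ m : ℕ, {s : unitInterval | dist (f s) z < r - 1 / ((m : ℝ) + 1)} := by
    ext s
    simp only [Set.mem_iUnion]
    constructor
    · intro hs
      have hs' : 0 < r - dist (f s) z := sub_pos.mpr hs
      obtain ⟨m, hm⟩ := exists_nat_one_div_lt hs'
      exact ⟨m, by show dist (f s) z < r - 1 / ((m : ℝ) + 1); linarith⟩
    · rintro ⟨m, hm⟩
      have hm' : dist (f s) z < r - 1 / ((m : ℝ) + 1) := hm
      have : (0:ℝ) < 1 / ((m : ℝ) + 1) := by positivity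
      show dist (f s) z < r
      linarith
  have hmono : Monotone fun m : ℕ => {s : unitInterval | dist (f s) z < r - 1 / ((m : ℝ) + 1)} := by
    intro m m' hmm s hs
    have hs' : dist (f s) z < r - 1 / ((m : ℝ) + 1) := hs
    have : 1 / ((m' : ℝ) + 1) ≤ 1 / ((m : ℝ) + 1) := by
      apply one_div_le_one_div_of_le (by positivity)
      have : (m : ℝ) ≤ m' := by exact_mod_cast hmm
      linarith
    show dist (f s) z < r - 1 / ((m' : ℝ) + 1)
    linarith
  rw [hU, hmono.measure_iUnion]
  exact iSup_le fun m => key _ (by positivity)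

/-- The occupation bound for the discrete curve. -/
theorem curve_occ {R : Rect} {δ S Λ1 ΛT α r : ℝ} {F : Finset Edg} (hδ : 0 < δ)
    (hD : (R.dm δ).Ok) (hF : F ⊆ (R.dm δ).edges) (hS : 0 < S) (hα : 0 < α) (hΛ1 : 0 < Λ1)
    (hΛT : 0 < ΛT) (z : ℂ) (hr : δ ≤ r) (h4 : 4 * r ≤ S)
    (hgood : ∀ (v0 : Vtx) (ρ : ℝ), 1 ≤ ρ → ρ ≤ S / δ →
      (NQ (R.dm δ) (bl (R.dm δ) v0 ρ) F : ℝ) ≤ Λ1 * (S / δ) ^ (7/4 : ℝ) * (ρ / (S / δ)) ^ α)
    (htime : 1 / ΛT ≤ R.time δ F) :
    volume {s : unitInterval | dist (R.curve δ F s) z < r} ≤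
      ENNReal.ofReal (4 * Λ1 * S ^ (7/4 : ℝ) * ΛT * (4 / S) ^ α * r ^ α) := by
  classical
  set D := R.dm δ with hDdef
  set N := D.len F with hN
  have hr0 : 0 < r := hδ.trans_le hr
  have hδp : 0 < δ ^ (7/4 : ℝ) := Real.rpow_pos_of_pos hδ _
  have htime' : 1 / ΛT ≤ δ ^ (7/4 : ℝ) * (N : ℝ) := htime
  have hNpos : 0 < N := by
    rcases Nat.eq_zero_or_pos N with h | h
    · rw [h] at htime'
      have : 0 < 1 / ΛT := by positivity
      norm_num at htime'
      linarith
    · exact h
  have hNr : (0:ℝ) < N := by exact_mod_cast hNpos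
  set p : ℕ → ℂ := fun k => pos δ (D.walk F k) with hp
  have hstep : ∀ k < N, dist (p k) (p (k + 1)) ≤ δ / 2 := by
    intro k _
    have := pos_nxt hδ.le (D.cfg F) (D.walk F k)
    rwa [← walk_succ] at this
  set K : Finset ℕ := (Finset.range N).filter (fun k => dist (p k) z < r + δ / 2) with hK
  have hsub : {s : unitInterval | dist (R.curve δ F s) z < r} ⊆ ⋃ k ∈ K, EnergyC_I N k := by
    intro s hs
    obtain ⟨k, hk, hks⟩ := EnergyC_cover hNpos s
    have h1 := EnergyC_near hstep hk hks
    have hs' : dist (pl N p s) z < r := hs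
    have h2 := dist_triangle (p k) (pl N p s) z
    have h3 : dist (p k) z < r + δ / 2 := by
      have h4 : dist (p k) (pl N p s) ≤ δ / 2 := by
        first
          | exact h1
          | (rw [dist_comm]; exact h1)
      linarith
    simp only [Set.mem_iUnion]
    exact ⟨k, Finset.mem_filter.mpr ⟨Finset.mem_range.mpr hk, h3⟩, hks⟩
  have hcard : (K.card : ℝ) ≤ 4 * (Λ1 * (S / δ) ^ (7/4 : ℝ) * ((4 * r / δ) / (S / δ)) ^ α) := by
    rcases K.eq_empty_or_nonempty with h | ⟨k0, hk0⟩
    · rw [h, Finset.card_empty]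
      push_cast
      positivity
    · set v0 : Vtx := (D.walk F k0).1 with hv0
      have hq1 : 1 ≤ 4 * r / δ := by
        rw [le_div_iff₀ hδ]; linarith
      have hq2 : 4 * r / δ ≤ S / δ := div_le_div_of_nonneg_right h4 hδ.le
      have hg := hgood v0 (4 * r / δ) hq1 hq2
      have hcN : K.card ≤ 4 * NQ D (bl D v0 (4 * r / δ)) F := by
        set T : Finset St := ((bl D v0 (4 * r / δ)).filter (VV D F)) ×ˢ (Finset.univ : Finset Q4)
          with hT
        have hTc : T.card = 4 * NQ D (bl D v0 (4 * r / δ)) F := by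
          rw [hT, Finset.card_product, Finset.card_univ, show Fintype.card Q4 = 4 from rfl,
            mul_comm]
          rfl
        rw [← hTc]
        refine Finset.card_le_card_of_injOn (fun k => D.walk F k) ?_ ?_
        · intro k hk
          have hk' : k ∈ K := hk
          rw [hK, Finset.mem_filter, Finset.mem_range] at hk'
          have hk0' : k0 ∈ K := hk0
          rw [hK, Finset.mem_filter, Finset.mem_range] at hk0'
          have hkl : k ≤ D.len F := hk'.1.le
          have hclu := clu_inR hD hF (walk_clu hD hF hkl).1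
          show D.walk F k ∈ T
          rw [hT, Finset.mem_product]
          refine ⟨Finset.mem_filter.mpr ⟨?_, ⟨(D.walk F k).2, k, hkl, rfl⟩⟩, Finset.mem_univ _⟩
          unfold bl
          rw [Finset.mem_filter]
          constructor
          · unfold rectV
            rw [Finset.mem_product, Finset.mem_Icc, Finset.mem_Icc]
            exact hclu
          · have h5 := le_dist_pos hδ.le (D.walk F k) (D.walk F k0)
            have h6 := dist_triangle (p k) z (p k0)
            rw [dist_comm z (p k0)] at h6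
            have h7 : δ * (((H984N.sd (D.walk F k).1 (D.walk F k0).1 : ℤ) : ℝ) - 1/2) <
                2 * r + δ := by
              have h8 : dist (pos δ (D.walk F k)) (pos δ (D.walk F k0)) = dist (p k) (p k0) := rfl
              rw [h8] at h5
              linarith [hk'.2, hk0'.2]
            show ((H984N.sd (D.walk F k).1 (D.walk F k0).1 : ℤ) : ℝ) ≤ 4 * r / δ
            rw [le_div_iff₀ hδ]
            nlinarith
        · intro i hi j hj hij
          have hi' : i ∈ K := hi
          have hj' : j ∈ K := hj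
          rw [hK, Finset.mem_filter, Finset.mem_range] at hi' hj'
          by_contra hne
          rcases Nat.lt_or_gt_of_ne hne with h | h
          · exact walk_inj hD hF h hj'.1.le hij
          · exact walk_inj hD hF h hi'.1.le hij.symm
      have hcN' : (K.card : ℝ) ≤ 4 * (NQ D (bl D v0 (4 * r / δ)) F : ℝ) := by exact_mod_cast hcN
      linarith
  have hvol : volume {s : unitInterval | dist (R.curve δ F s) z < r} ≤
      ENNReal.ofReal (K.card * (1 / N)) := by
    refine (measure_mono hsub).trans ((measure_biUnion_finset_le _ _).trans ?_)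
    have h1 : ∀ k ∈ K, volume (EnergyC_I N k) ≤ ENNReal.ofReal (1 / N) := by
      intro k _
      have := EnergyC_vol k hNpos
      rw [← ENNReal.ofReal_toReal (measure_ne_top volume (EnergyC_I N k))]
      exact ENNReal.ofReal_le_ofReal this
    refine (Finset.sum_le_sum h1).trans ?_
    rw [Finset.sum_const, nsmul_eq_mul, ENNReal.ofReal_mul (Nat.cast_nonneg _),
      ENNReal.ofReal_natCast]
  refine hvol.trans (ENNReal.ofReal_le_ofReal ?_)
  have h9 : 1 / (N : ℝ) ≤ ΛT * δ ^ (7/4 : ℝ) := by
    rw [div_le_iff₀ hNr]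
    rw [div_le_iff₀ hΛT] at htime'
    linarith
  have e1 : (4 * r / δ) / (S / δ) = (4 / S) * r := by field_simp
  have e2 : (S / δ) ^ (7/4 : ℝ) = S ^ (7/4 : ℝ) / δ ^ (7/4 : ℝ) := Real.div_rpow hS.le hδ.le _
  rw [e1, Real.mul_rpow (by positivity) hr0.le, e2] at hcard
  calc (K.card : ℝ) * (1 / N) ≤ (4 * (Λ1 * (S ^ (7/4 : ℝ) / δ ^ (7/4 : ℝ)) *
        ((4 / S) ^ α * r ^ α))) * (ΛT * δ ^ (7/4 : ℝ)) :=
        mul_le_mul hcard h9 (by positivity) (by positivity)
    _ = 4 * Λ1 * S ^ (7/4 : ℝ) * ΛT * (4 / S) ^ α * r ^ α := by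
        field_simp

end H443P
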