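import Pool.Agent.H443R3.UD.Lim

/-!
The occupation bound for the scaling limits of the exploration path: passage to the limit.
-/

namespace H443P

open H974 Finset H342P H984P H984N H443U MeasureTheory Filter Topology

theorem and_ge (S : Finset Edg) (A B : Finset Edg → Prop) :
    P S A + P S B - 1 ≤ P S (fun F => A F ∧ B F) := by
  have h1 : P S (fun F => ¬ (A F ∧ B F)) ≤ P S (fun F => ¬ A F) + P S (fun F => ¬ B F) := by
    refine le_trans (Pr_mono okh ?_) (Pr_or_le okh S _ _)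
    intro F _ h
    by_contra hcon
    push Not at hcon
    exact h hcon
  have e1 : P S (fun F => ¬ (A F ∧ B F)) = 1 - P S (fun F => A F ∧ B F) := Pr_not _ _
  have e2 : P S (fun F => ¬ A F) = 1 - P S A := Pr_not _ _
  have e3 : P S (fun F => ¬ B F) = 1 - P S B := Pr_not _ _
  rw [e1, e2, e3] at h1
  linarith

/-- The occupation bound with probability close to one, at all small meshes. -/
theorem mesh_occ {C : ℝ} (hC : 0 < C) (hU : TwoUp C (1/4)) (hS : TaskSum) (R : Rect)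
    (hT : ∀ ε : ℝ, 0 < ε → ∃ Λ δ0 : ℝ, 0 < Λ ∧ 0 < δ0 ∧ ∀ δ : ℝ, 0 < δ → δ ≤ δ0 →
      1 - ε ≤ R.prob δ (fun F => 1 / Λ ≤ R.time δ F))
    {α : ℝ} (hα0 : 0 < α) (hα : α < 7/4) {ε : ℝ} (hε : 0 < ε) :
    ∃ Λ : ℝ, 0 < Λ ∧ ∀ r0 : ℝ, 0 < r0 → ∃ δ0 : ℝ, 0 < δ0 ∧ ∀ δ : ℝ, 0 < δ → δ ≤ δ0 →
      R.prob δ (fun F => R.curve δ F ∉ OG α Λ r0) ≤ ε := by
  obtain ⟨κ, S, δ3, -, hS0, hδ3, hδ31, H3⟩ := R.shape
  obtain ⟨ΛT, δT, hΛT, hδT, HT⟩ := hT (ε / 2) (by positivity)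
  obtain ⟨Λ1, hΛ1, H1⟩ := occ hC hU hS hα0 hα (ε := ε / 2) (by positivity)
  set Λ : ℝ := max ((4 / S) ^ α) (4 * Λ1 * S ^ (7/4 : ℝ) * ΛT * (4 / S) ^ α) with hΛ
  have hΛa : (4 / S) ^ α ≤ Λ := le_max_left _ _
  have hΛb : 4 * Λ1 * S ^ (7/4 : ℝ) * ΛT * (4 / S) ^ α ≤ Λ := le_max_right _ _
  have hΛ0 : 0 < Λ := lt_of_lt_of_le (by positivity) hΛa
  refine ⟨Λ, hΛ0, fun r0 hr0 => ⟨min (min δ3 δT) (min S r0), by positivity, fun δ hδ hδm => ?_⟩⟩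
  have d3 : δ ≤ δ3 := hδm.trans ((min_le_left _ _).trans (min_le_left _ _))
  have dT : δ ≤ δT := hδm.trans ((min_le_left _ _).trans (min_le_right _ _))
  have dS : δ ≤ S := hδm.trans ((min_le_right _ _).trans (min_le_left _ _))
  have dr : δ ≤ r0 := hδm.trans ((min_le_right _ _).trans (min_le_right _ _))
  have hSh := H3 δ hδ d3
  have hn : 1 ≤ S / δ := by rwa [le_div_iff₀ hδ, one_mul]
  have hT1 := HT δ hδ dT
  have hO1 := H1 (R.dm δ) (S / δ) hSh.ok hn hSh.w_le hSh.h_le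
  have hand := and_ge (R.dm δ).edges (fun F => 1 / ΛT ≤ R.time δ F)
    (fun F => ∀ (v0 : Vtx) (r : ℝ), 1 ≤ r → r ≤ S / δ →
        (NQ (R.dm δ) (bl (R.dm δ) v0 r) F : ℝ) ≤ Λ1 * (S / δ) ^ (7/4 : ℝ) * (r / (S / δ)) ^ α)
  have hmono : Pr (fun _ => (1/2:ℝ)) (R.dm δ).edges (fun F => 1 / ΛT ≤ R.time δ F ∧
      ∀ (v0 : Vtx) (r : ℝ), 1 ≤ r → r ≤ S / δ →
        (NQ (R.dm δ) (bl (R.dm δ) v0 r) F : ℝ) ≤ Λ1 * (S / δ) ^ (7/4 : ℝ) * (r / (S / δ)) ^ α) ≤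
      Pr (fun _ => (1/2:ℝ)) (R.dm δ).edges (fun F => R.curve δ F ∈ OG α Λ r0) := by
    refine Pr_mono okh fun F hF h => ?_
    obtain ⟨g1, g2⟩ := h
    intro z r hr hr'
    rcases le_or_gt (4 * r) S with h4 | h4
    · refine (curve_occ hδ hSh.ok hF hS0 hα0 hΛ1 hΛT z (dr.trans hr) h4 g2 g1).trans
        (ENNReal.ofReal_le_ofReal ?_)
      exact mul_le_mul_of_nonneg_right hΛb (Real.rpow_nonneg hr'.le _)
    · have h5 : 1 ≤ Λ * r ^ α := by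
        calc (1:ℝ) ≤ (4 / S * r) ^ α := by
              apply Real.one_le_rpow _ hα0.le
              rw [div_mul_eq_mul_div, le_div_iff₀ hS0]
              linarith
          _ = (4 / S) ^ α * r ^ α := Real.mul_rpow (by positivity) hr'.le
          _ ≤ Λ * r ^ α := mul_le_mul_of_nonneg_right hΛa (Real.rpow_nonneg hr'.le _)
      calc volume {s : unitInterval | dist (R.curve δ F s) z < r} ≤ 1 := prob_le_one
        _ = ENNReal.ofReal 1 := ENNReal.ofReal_one.symm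
        _ ≤ ENNReal.ofReal (Λ * r ^ α) := ENNReal.ofReal_le_ofReal h5
  have hnot : Pr (fun _ => (1/2:ℝ)) (R.dm δ).edges (fun F => ¬ (R.curve δ F ∈ OG α Λ r0)) =
      1 - Pr (fun _ => (1/2:ℝ)) (R.dm δ).edges (fun F => R.curve δ F ∈ OG α Λ r0) := Pr_not _ _
  show Pr (fun _ => (1/2:ℝ)) (R.dm δ).edges (fun F => ¬ (R.curve δ F ∈ OG α Λ r0)) ≤ ε
  rw [hnot]
  have hT1' : 1 - ε / 2 ≤ Pr (fun _ => (1/2:ℝ)) (R.dm δ).edges (fun F => 1 / ΛT ≤ R.time δ F) := hT1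
  have hO1' : 1 - ε / 2 ≤ Pr (fun _ => (1/2:ℝ)) (R.dm δ).edges (fun F => ∀ (v0 : Vtx) (r : ℝ),
      1 ≤ r → r ≤ S / δ →
        (NQ (R.dm δ) (bl (R.dm δ) v0 r) F : ℝ) ≤
          Λ1 * (S / δ) ^ (7/4 : ℝ) * (r / (S / δ)) ^ α) := hO1
  linarith

variable (R : Rect) {δ : ℕ → ℝ} (hδ : ∀ i, 0 < δ i) (hlim : Tendsto δ atTop (𝓝 0))
  {μ : ProbabilityMeasure X} (hμ : Tendsto (fun i => R.law (δ i)) atTop (𝓝 μ))

include hδ hlim hμ

theorem limit_occ {C : ℝ} (hC : 0 < C) (hU : TwoUp C (1/4)) (hS : TaskSum)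
    (hT : ∀ ε : ℝ, 0 < ε → ∃ Λ δ0 : ℝ, 0 < Λ ∧ 0 < δ0 ∧ ∀ δ : ℝ, 0 < δ → δ ≤ δ0 →
      1 - ε ≤ R.prob δ (fun F => 1 / Λ ≤ R.time δ F))
    {α : ℝ} (hα0 : 0 < α) (hα : α < 7/4) :
    ∀ᵐ p ∂(μ : Measure X), ∃ Λ : ℝ, 0 < Λ ∧ ∀ (z : ℂ) (r : ℝ), 0 < r →
      volume {s : unitInterval | dist (p.1 s) z < r} ≤ ENNReal.ofReal (Λ * r ^ α) := by
  rw [ae_iff, ← nonpos_iff_eq_zero]
  apply ENNReal.le_of_forall_pos_le_add
  intro ε hε _
  obtain ⟨Λ, hΛ, H⟩ := mesh_occ hC hU hS R hT hα0 hα (ε := (ε : ℝ)) (by exact_mod_cast hε)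
  rw [zero_add]
  set G : ℕ → Set X := fun m => {p | p.1 ∈ OG α Λ (1 / ((m : ℝ) + 1))} with hG
  have hGc : ∀ m, IsClosed (G m) := fun m => (og_closed α Λ _).preimage continuous_fst
  have hm : ∀ m, (μ : Measure X) (G m)ᶜ ≤ ENNReal.ofReal ε := by
    intro m
    obtain ⟨δ0, hδ0, h⟩ := H (1 / ((m : ℝ) + 1)) (by positivity)
    exact limit_closed R hδ hlim hμ (hGc m) (NNReal.coe_nonneg ε) hδ0 h
  have hmono : Monotone fun m => (G m)ᶜ := by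
    intro m m' hmm
    apply Set.compl_subset_compl.mpr
    intro p hp z r hr hr'
    refine hp z r (le_trans ?_ hr) hr'
    apply one_div_le_one_div_of_le (by positivity)
    have : (m : ℝ) ≤ m' := by exact_mod_cast hmm
    linarith
  have hsub : {p : X | ¬ ∃ Λ : ℝ, 0 < Λ ∧ ∀ (z : ℂ) (r : ℝ), 0 < r →
      volume {s : unitInterval | dist (p.1 s) z < r} ≤ ENNReal.ofReal (Λ * r ^ α)} ⊆
      ⋃ m, (G m)ᶜ := by
    intro p hp
    by_contra hcon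
    apply hp
    refine ⟨Λ, hΛ, fun z r hr => ?_⟩
    obtain ⟨m, hm⟩ := exists_nat_one_div_lt hr
    have hpm : p ∈ G m := by
      by_contra h
      exact hcon (Set.mem_iUnion.mpr ⟨m, h⟩)
    exact hpm z r hm.le hr
  refine (measure_mono hsub).trans ?_
  rw [hmono.measure_iUnion]
  refine iSup_le fun m => (hm m).trans (le_of_eq ?_)
  exact ENNReal.ofReal_coe_nnreal

/-- All exponents at the same time. -/
theorem limit_occ_all {C : ℝ} (hC : 0 < C) (hU : TwoUp C (1/4)) (hS : TaskSum)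
    (hT : ∀ ε : ℝ, 0 < ε → ∃ Λ δ0 : ℝ, 0 < Λ ∧ 0 < δ0 ∧ ∀ δ : ℝ, 0 < δ → δ ≤ δ0 →
      1 - ε ≤ R.prob δ (fun F => 1 / Λ ≤ R.time δ F)) :
    ∀ᵐ p ∂(μ : Measure X), ∀ α : ℝ, 0 < α → α < 7/4 → ∃ Λ : ℝ, 0 < Λ ∧
      ∀ (z : ℂ) (r : ℝ), 0 < r →
        volume {s : unitInterval | dist (p.1 s) z < r} ≤ ENNReal.ofReal (Λ * r ^ α) := by
  have h : ∀ᵐ p ∂(μ : Measure X), ∀ m : ℕ, ∃ Λ : ℝ, 0 < Λ ∧ ∀ (z : ℂ) (r : ℝ), 0 < r →
      volume {s : unitInterval | dist (p.1 s) z < r} ≤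
        ENNReal.ofReal (Λ * r ^ (7/4 - 1/((m:ℝ)+2))) := by
    rw [ae_all_iff]
    intro m
    exact limit_occ R hδ hlim hμ hC hU hS hT (Final_alpha m).1 (Final_alpha m).2
  filter_upwards [h] with p hp α hα0 hα
  have hev : ∀ᶠ m : ℕ in atTop, 1/((m:ℝ)+2) < 7/4 - α :=
    Final_tend.eventually (gt_mem_nhds (by linarith))
  obtain ⟨m, hm⟩ := hev.exists
  obtain ⟨Λ, hΛ, h⟩ := hp m
  refine ⟨max Λ 1, by positivity, fun z r hr => ?_⟩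
  rcases le_or_gt r 1 with h1 | h1
  · refine (h z r hr).trans (ENNReal.ofReal_le_ofReal ?_)
    have h2 : r ^ (7/4 - 1/((m:ℝ)+2)) ≤ r ^ α :=
      Real.rpow_le_rpow_of_exponent_ge hr h1 (by linarith)
    exact mul_le_mul (le_max_left _ _) h2 (Real.rpow_nonneg hr.le _) (by positivity)
  · have h2 : 1 ≤ max Λ 1 * r ^ α := by
      have := Real.one_le_rpow h1.le hα0.le
      nlinarith [le_max_right Λ 1]
    calc volume {s : unitInterval | dist (p.1 s) z < r} ≤ 1 := prob_le_one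
      _ = ENNReal.ofReal 1 := ENNReal.ofReal_one.symm
      _ ≤ ENNReal.ofReal (max Λ 1 * r ^ α) := ENNReal.ofReal_le_ofReal h2

end H443P
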