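import Pool.Agent.H443R3.UD.Occ2H
import Pool.Agent.H443R3.UD.Lim
import Pool.Agent.H984R4.HN.FinalH

/-!
The occupation bound for the scaling limits of the exploration path in the half-plane.
-/

namespace H443Q

open H974 Finset H342P H984P H984H H443U MeasureTheory Filter Topology

/-- The occupation bound for the discrete curve. -/
theorem curve_occ {n : ℕ} (hn : 1 ≤ n) {ω : Conf} {ρ : ℤ} (hρ : 1 ≤ ρ) (hstay : Stay ρ n ω)
    {δ S Λ1 α r : ℝ} (hδd : δ = (n : ℝ) ^ (-(4/7) : ℝ)) (hSd : S = δ * (2 * (ρ : ℝ)))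
    (hα : 0 < α) (hΛ1 : 0 < Λ1) (z : ℂ) (hr : δ ≤ r) (h4 : 4 * r ≤ S)
    (hgood : ∀ (v0 : Vtx) (s : ℝ), 1 ≤ s → s ≤ 2 * (ρ : ℝ) →
      (NQ (bx ρ) (bl (bx ρ) v0 s) (cut ω ρ) : ℝ) ≤
        Λ1 * (2 * (ρ : ℝ)) ^ (7/4 : ℝ) * (s / (2 * (ρ : ℝ))) ^ α) :
    volume {s : unitInterval | dist (curve n ω s) z < r} ≤
      ENNReal.ofReal (4 * Λ1 * S ^ (7/4 : ℝ) * (4 / S) ^ α * r ^ α) := by
  classical
  set D : Dm := bx ρ with hDdef
  set F : Finset Edg := cut ω ρ with hFdef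
  have hD : D.Ok := bx_ok hρ
  have hF : F ⊆ D.edges := Couple_cut_sub ω ρ
  have hNpos : 0 < n := hn
  have hNr : (0:ℝ) < n := by exact_mod_cast hNpos
  have hρ0 : (0:ℝ) < 2 * (ρ : ℝ) := by
    have : (1:ℝ) ≤ ρ := by exact_mod_cast hρ
    linarith
  have hδ : 0 < δ := by rw [hδd]; exact Real.rpow_pos_of_pos hNr _
  have hS : 0 < S := by rw [hSd]; positivity
  have hSδ : S / δ = 2 * (ρ : ℝ) := by rw [hSd]; field_simp
  rw [← hSδ] at hgood
  have hr0 : 0 < r := hδ.trans_le hr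
  have hcp : ∀ k < n, k + 1 ≤ D.len F ∧ D.walk F (D.len F - 1 - k) = path ω k := fun k hk =>
    couple hρ ω (fun j hj => hstay j (by omega))
  set p : ℕ → ℂ := fun k => (δ : ℂ) * gam ω k with hp
  have hdist : ∀ i j, dist (p i) (p j) = δ * dist (gam ω i) (gam ω j) := by
    intro i j
    show dist ((δ : ℂ) * gam ω i) ((δ : ℂ) * gam ω j) = _
    rw [dist_eq_norm, ← mul_sub, norm_mul, Complex.norm_real, Real.norm_eq_abs,
      abs_of_pos hδ, ← dist_eq_norm]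
  have hstep : ∀ k < n, dist (p k) (p (k + 1)) ≤ δ / 2 := by
    intro k _
    rw [hdist]
    have := gam_step ω k
    nlinarith
  have hcv : curve n ω = H984N.pl n p := by
    unfold curve
    rw [hp, hδd]
  set K : Finset ℕ := (Finset.range n).filter (fun k => dist (p k) z < r + δ / 2) with hK
  have hsub : {s : unitInterval | dist (curve n ω s) z < r} ⊆ ⋃ k ∈ K, H984N.EnergyC_I n k := by
    intro s hs
    obtain ⟨k, hk, hks⟩ := H984N.EnergyC_cover hNpos s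
    have h1 := H984N.EnergyC_near hstep hk hks
    have hs' : dist (H984N.pl n p s) z < r := by rw [← hcv]; exact hs
    have h2 := dist_triangle (p k) (H984N.pl n p s) z
    have h3 : dist (p k) z < r + δ / 2 := by
      have h4 : dist (p k) (H984N.pl n p s) ≤ δ / 2 := by
        first
          | exact h1
          | (rw [dist_comm]; exact h1)
      linarith
    simp only [Set.mem_iUnion]
    exact ⟨k, Finset.mem_filter.mpr ⟨Finset.mem_range.mpr hk, h3⟩, hks⟩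
  have hcard : (K.card : ℝ) ≤ 4 * (Λ1 * (S / δ) ^ (7/4 : ℝ) * ((4 * r / δ) / (S / δ)) ^ α) := by
    rcases K.eq_empty_or_nonempty with h | ⟨k0, hk0⟩
    · rw [h, Finset.card_empty]
      push_cast
      positivity
    · set v0 : Vtx := (path ω k0).1 with hv0
      have hq1 : 1 ≤ 4 * r / δ := by
        rw [le_div_iff₀ hδ]; linarith
      have hq2 : 4 * r / δ ≤ S / δ := div_le_div_of_nonneg_right h4 hδ.le
      have hg := hgood v0 (4 * r / δ) hq1 hq2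
      have hcN : K.card ≤ 4 * NQ D (bl D v0 (4 * r / δ)) F := by
        set T : Finset St := ((bl D v0 (4 * r / δ)).filter (VV D F)) ×ˢ (Finset.univ : Finset Q4)
          with hT
        have hTc : T.card = 4 * NQ D (bl D v0 (4 * r / δ)) F := by
          rw [hT, Finset.card_product, Finset.card_univ, show Fintype.card Q4 = 4 from rfl,
            mul_comm]
          rfl
        rw [← hTc]
        refine Finset.card_le_card_of_injOn (fun k => path ω k) ?_ ?_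
        · intro k hk
          have hk' : k ∈ K := hk
          rw [hK, Finset.mem_filter, Finset.mem_range] at hk'
          have hk0' : k0 ∈ K := hk0
          rw [hK, Finset.mem_filter, Finset.mem_range] at hk0'
          obtain ⟨hc1, hc2⟩ := hcp k hk'.1
          have hkl : D.len F - 1 - k ≤ D.len F := by omega
          have hclu := clu_inR hD hF (walk_clu hD hF hkl).1
          rw [hc2] at hclu
          show path ω k ∈ T
          rw [hT, Finset.mem_product]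
          refine ⟨Finset.mem_filter.mpr ⟨?_, ⟨(path ω k).2, D.len F - 1 - k, hkl, hc2⟩⟩,
            Finset.mem_univ _⟩
          unfold bl
          rw [Finset.mem_filter]
          constructor
          · unfold rectV
            rw [Finset.mem_product, Finset.mem_Icc, Finset.mem_Icc]
            exact hclu
          · have h5 := le_dist_place (path ω k) (path ω k0)
            have h6 := dist_triangle (p k) z (p k0)
            rw [dist_comm z (p k0)] at h6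
            have h8 : dist (p k) (p k0) = δ * dist (place (path ω k)) (place (path ω k0)) :=
              hdist k k0
            have h9 : δ * (((H984H.sd (path ω k).1 (path ω k0).1 : ℤ) : ℝ) - 1/2) ≤
                δ * dist (place (path ω k)) (place (path ω k0)) :=
              mul_le_mul_of_nonneg_left h5 hδ.le
            have h7 : δ * (((H984H.sd (path ω k).1 (path ω k0).1 : ℤ) : ℝ) - 1/2) <
                2 * r + δ := by
              linarith [hk'.2, hk0'.2]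
            show ((H984H.sd (path ω k).1 (path ω k0).1 : ℤ) : ℝ) ≤ 4 * r / δ
            rw [le_div_iff₀ hδ]
            nlinarith
        · intro i hi j hj hij
          by_contra hne
          exact path_inj ω hne hij
      have hcN' : (K.card : ℝ) ≤ 4 * (NQ D (bl D v0 (4 * r / δ)) F : ℝ) := by exact_mod_cast hcN
      linarith
  have hvol : volume {s : unitInterval | dist (curve n ω s) z < r} ≤
      ENNReal.ofReal (K.card * (1 / n)) := by
    refine (measure_mono hsub).trans ((measure_biUnion_finset_le _ _).trans ?_)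
    have h1 : ∀ k ∈ K, volume (H984N.EnergyC_I n k) ≤ ENNReal.ofReal (1 / n) := by
      intro k _
      have := H984N.EnergyC_vol k hNpos
      rw [← ENNReal.ofReal_toReal (measure_ne_top volume (H984N.EnergyC_I n k))]
      exact ENNReal.ofReal_le_ofReal this
    refine (Finset.sum_le_sum h1).trans ?_
    rw [Finset.sum_const, nsmul_eq_mul, ENNReal.ofReal_mul (Nat.cast_nonneg _),
      ENNReal.ofReal_natCast]
  refine hvol.trans (ENNReal.ofReal_le_ofReal ?_)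
  have h9 : 1 / (n : ℝ) = δ ^ (7/4 : ℝ) := by
    rw [hδd, ← Real.rpow_mul hNr.le, show (-(4/7) : ℝ) * (7/4) = -1 by norm_num,
      Real.rpow_neg_one, one_div]
  have hδp : 0 < δ ^ (7/4 : ℝ) := Real.rpow_pos_of_pos hδ _
  have e1 : (4 * r / δ) / (S / δ) = (4 / S) * r := by field_simp
  have e2 : (S / δ) ^ (7/4 : ℝ) = S ^ (7/4 : ℝ) / δ ^ (7/4 : ℝ) := Real.div_rpow hS.le hδ.le _
  rw [e1, Real.mul_rpow (by positivity) hr0.le, e2] at hcard
  calc (K.card : ℝ) * (1 / n) ≤ (4 * (Λ1 * (S ^ (7/4 : ℝ) / δ ^ (7/4 : ℝ)) *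
        ((4 / S) ^ α * r ^ α))) * (δ ^ (7/4 : ℝ)) :=
        mul_le_mul hcard h9.le (by positivity) (by positivity)
    _ = 4 * Λ1 * S ^ (7/4 : ℝ) * (4 / S) ^ α * r ^ α := by
        field_simp

/-- The path stays in a large box. -/
theorem stay_box {a A : ℝ} (ha : 0 < a) (hA : 0 < A)
    (hup : ∀ (n : ℕ) (x : ℝ), 1 ≤ n → 0 < x →
      perc.real {ω | x * (n : ℝ) ^ (4/7 : ℝ) ≤ reach n ω} ≤ A * Real.exp (-(a * x ^ (1/2 : ℝ))))
    {ε : ℝ} (hε : 0 < ε) :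
    ∃ b : ℝ, 1 ≤ b ∧ ∀ (n : ℕ) (ρ : ℤ), 1 ≤ n → b * (n : ℝ) ^ (4/7 : ℝ) ≤ ρ →
      perc.real {ω | ¬ Stay ρ n ω} ≤ ε := by
  have hlim : Tendsto (fun x : ℝ => A * Real.exp (-(a * x ^ (1/2 : ℝ)))) atTop (𝓝 (A * 0)) := by
    apply Tendsto.const_mul
    apply Real.tendsto_exp_atBot.comp
    apply tendsto_neg_atTop_atBot.comp
    exact (tendsto_rpow_atTop (by norm_num)).const_mul_atTop ha
  rw [mul_zero] at hlim
  obtain ⟨x, hx1, hx2⟩ := ((hlim.eventually (ge_mem_nhds hε)).and (eventually_ge_atTop 1)).exists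
  refine ⟨2 * x, by linarith, fun n ρ hn hρ => ?_⟩
  refine le_trans (measureReal_mono ?_) ((hup n x hn (by linarith)).trans hx1)
  intro ω hω
  have hω' : ¬ Stay ρ n ω := hω
  unfold Stay at hω'
  push Not at hω'
  obtain ⟨j, hj, hj2⟩ := hω'
  have hnR : (1 : ℝ) ≤ n := by exact_mod_cast hn
  have hN1 : 1 ≤ (n : ℝ) ^ (4/7 : ℝ) := Real.one_le_rpow hnR (by norm_num)
  have h1 : ((H984H.sd (path ω j).1 (0, 0) : ℤ) : ℝ) - 1/4 ≤ ‖gam ω j‖ := le_norm_place _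
  have h2 : ‖gam ω j‖ ≤ reach n ω :=
    Finset.le_sup' (fun k => ‖gam ω k‖) (Finset.mem_range.mpr (by omega))
  have h3 : (ρ : ℝ) ≤ ((H984H.sd (path ω j).1 (0, 0) : ℤ) : ℝ) := by exact_mod_cast hj2
  show x * (n : ℝ) ^ (4/7 : ℝ) ≤ reach n ω
  nlinarith

/-- The occupation bound with probability close to one, for all large numbers of steps. -/
theorem mesh_occ {C : ℝ} (hC : 0 < C) (hU : TwoUp C (1/4)) (hS : TaskSum)
    {a A : ℝ} (ha : 0 < a) (hA : 0 < A)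
    (hup : ∀ (n : ℕ) (x : ℝ), 1 ≤ n → 0 < x →
      perc.real {ω | x * (n : ℝ) ^ (4/7 : ℝ) ≤ reach n ω} ≤ A * Real.exp (-(a * x ^ (1/2 : ℝ))))
    {α : ℝ} (hα0 : 0 < α) (hα : α < 7/4) {ε : ℝ} (hε : 0 < ε) :
    ∃ Λ : ℝ, 0 < Λ ∧ ∀ r0 : ℝ, 0 < r0 → ∀ n : ℕ, 1 ≤ n → (n : ℝ) ^ (-(4/7) : ℝ) ≤ r0 →
      perc.real {ω | curve n ω ∉ H443P.OG α Λ r0} ≤ ε := by
  obtain ⟨b, hb1, hb⟩ := stay_box ha hA hup (ε := ε / 2) (by positivity)
  obtain ⟨Λ1, hΛ1, H1⟩ := occ hC hU hS hα0 hα (ε := ε / 2) (by positivity)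
  have hb0 : 0 < b := by linarith
  set Λ : ℝ := max ((4 / (2 * b)) ^ α)
    (4 * Λ1 * (4 * b) ^ (7/4 : ℝ) * (4 / (2 * b)) ^ α) with hΛ
  have hΛa : (4 / (2 * b)) ^ α ≤ Λ := le_max_left _ _
  have hΛb : 4 * Λ1 * (4 * b) ^ (7/4 : ℝ) * (4 / (2 * b)) ^ α ≤ Λ := le_max_right _ _
  have hΛ0 : 0 < Λ := lt_of_lt_of_le (by positivity) hΛa
  refine ⟨Λ, hΛ0, fun r0 hr0 n hn hnr => ?_⟩
  have hnR : (1 : ℝ) ≤ n := by exact_mod_cast hn
  have hn0 : (0 : ℝ) < n := by linarith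
  obtain ⟨N, hNd⟩ : ∃ N : ℝ, N = (n : ℝ) ^ (4/7 : ℝ) := ⟨_, rfl⟩
  obtain ⟨δ, hδd⟩ : ∃ δ : ℝ, δ = (n : ℝ) ^ (-(4/7) : ℝ) := ⟨_, rfl⟩
  have hN1 : 1 ≤ N := by rw [hNd]; exact Real.one_le_rpow hnR (by norm_num)
  have hN0 : 0 < N := by linarith
  have hδN : δ * N = 1 := by
    rw [hδd, hNd, ← Real.rpow_add hn0]
    norm_num
  have hδ0 : 0 < δ := by rw [hδd]; exact Real.rpow_pos_of_pos hn0 _
  obtain ⟨ρ, hρd⟩ : ∃ ρ : ℤ, ρ = ⌈b * N⌉ := ⟨_, rfl⟩
  have hρ1 : b * N ≤ ρ := by rw [hρd]; exact Int.le_ceil _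
  have hρ2 : (ρ : ℝ) < b * N + 1 := by rw [hρd]; exact Int.ceil_lt_add_one _
  have hbN : 1 ≤ b * N := by nlinarith
  have hρR : (1 : ℝ) ≤ ρ := by linarith
  have hρ : 1 ≤ ρ := by exact_mod_cast hρR
  obtain ⟨S, hSd⟩ : ∃ S : ℝ, S = δ * (2 * (ρ : ℝ)) := ⟨_, rfl⟩
  have hS1 : 2 * b ≤ S := by
    have h1 : δ * (b * N) ≤ δ * ρ := mul_le_mul_of_nonneg_left hρ1 hδ0.le
    have h2 : δ * (b * N) = b := by
      calc δ * (b * N) = b * (δ * N) := by ring
        _ = b := by rw [hδN, mul_one]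
    rw [hSd]
    linarith
  have hS2 : S ≤ 4 * b := by
    have h1 : δ * ρ ≤ δ * (2 * (b * N)) := mul_le_mul_of_nonneg_left (by linarith) hδ0.le
    have h2 : δ * (2 * (b * N)) = 2 * b := by
      calc δ * (2 * (b * N)) = 2 * b * (δ * N) := by ring
        _ = 2 * b := by rw [hδN, mul_one]
    rw [hSd]
    linarith
  have hS0 : 0 < S := by linarith
  -- the bad event
  have hstay := hb n ρ hn (by rw [← hNd]; exact hρ1)
  have hO : perc.real {ω | ¬ ∀ (v0 : Vtx) (r : ℝ), 1 ≤ r → r ≤ 2 * (ρ : ℝ) →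
      (NQ (bx ρ) (bl (bx ρ) v0 r) (cut ω ρ) : ℝ) ≤
        Λ1 * (2 * (ρ : ℝ)) ^ (7/4 : ℝ) * (r / (2 * (ρ : ℝ))) ^ α} ≤ ε / 2 := by
    rw [perc_cut ρ (fun F => ¬ ∀ (v0 : Vtx) (r : ℝ), 1 ≤ r → r ≤ 2 * (ρ : ℝ) →
      (NQ (bx ρ) (bl (bx ρ) v0 r) F : ℝ) ≤
        Λ1 * (2 * (ρ : ℝ)) ^ (7/4 : ℝ) * (r / (2 * (ρ : ℝ))) ^ α)]
    have h1 := H1 (bx ρ) (2 * (ρ : ℝ)) (bx_ok hρ) (by linarith)
      (by show (((ρ - -ρ : ℤ)) : ℝ) ≤ 2 * (ρ : ℝ); push_cast; linarith)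
      (by show (ρ : ℝ) ≤ 2 * (ρ : ℝ); linarith)
    have h2 : Pr (fun _ => (1/2:ℝ)) (bx ρ).edges (fun F => ¬ ∀ (v0 : Vtx) (r : ℝ), 1 ≤ r →
        r ≤ 2 * (ρ : ℝ) → (NQ (bx ρ) (bl (bx ρ) v0 r) F : ℝ) ≤
        Λ1 * (2 * (ρ : ℝ)) ^ (7/4 : ℝ) * (r / (2 * (ρ : ℝ))) ^ α) =
        1 - Pr (fun _ => (1/2:ℝ)) (bx ρ).edges (fun F => ∀ (v0 : Vtx) (r : ℝ), 1 ≤ r →
        r ≤ 2 * (ρ : ℝ) → (NQ (bx ρ) (bl (bx ρ) v0 r) F : ℝ) ≤
        Λ1 * (2 * (ρ : ℝ)) ^ (7/4 : ℝ) * (r / (2 * (ρ : ℝ))) ^ α) := Pr_not _ _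
    show Pr (fun _ => (1/2:ℝ)) (bx ρ).edges _ ≤ ε / 2
    rw [h2]
    have h1' : 1 - ε / 2 ≤ Pr (fun _ => (1/2:ℝ)) (bx ρ).edges (fun F => ∀ (v0 : Vtx) (r : ℝ),
        1 ≤ r → r ≤ 2 * (ρ : ℝ) → (NQ (bx ρ) (bl (bx ρ) v0 r) F : ℝ) ≤
        Λ1 * (2 * (ρ : ℝ)) ^ (7/4 : ℝ) * (r / (2 * (ρ : ℝ))) ^ α) := h1
    linarith
  have hsub : {ω : Conf | curve n ω ∉ H443P.OG α Λ r0} ⊆ {ω | ¬ Stay ρ n ω} ∪
      {ω | ¬ ∀ (v0 : Vtx) (r : ℝ), 1 ≤ r → r ≤ 2 * (ρ : ℝ) →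
      (NQ (bx ρ) (bl (bx ρ) v0 r) (cut ω ρ) : ℝ) ≤
        Λ1 * (2 * (ρ : ℝ)) ^ (7/4 : ℝ) * (r / (2 * (ρ : ℝ))) ^ α} := by
    intro ω hω
    by_contra hcon
    rw [Set.mem_union, not_or] at hcon
    obtain ⟨g1, g2⟩ := hcon
    have g1' : Stay ρ n ω := not_not.mp g1
    have g2' := not_not.mp g2
    apply hω
    intro z r hr hr'
    rcases le_or_gt (4 * r) S with h4 | h4
    · refine (curve_occ hn hρ g1' hδd hSd hα0 hΛ1 z ?_ h4 g2').trans
        (ENNReal.ofReal_le_ofReal ?_)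
      · rw [hδd]; exact hnr.trans hr
      · have k1 : S ^ (7/4 : ℝ) ≤ (4 * b) ^ (7/4 : ℝ) :=
          Real.rpow_le_rpow hS0.le hS2 (by norm_num)
        have k2 : (4 / S) ^ α ≤ (4 / (2 * b)) ^ α := by
          apply Real.rpow_le_rpow (by positivity) _ hα0.le
          exact div_le_div_of_nonneg_left (by norm_num) (by positivity) hS1
        refine mul_le_mul_of_nonneg_right (le_trans ?_ hΛb) (Real.rpow_nonneg hr'.le _)
        apply mul_le_mul _ k2 (by positivity) (by positivity)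
        exact mul_le_mul_of_nonneg_left k1 (by positivity)
    · have h5 : 1 ≤ Λ * r ^ α := by
        calc (1:ℝ) ≤ (4 / (2 * b) * r) ^ α := by
              apply Real.one_le_rpow _ hα0.le
              rw [div_mul_eq_mul_div, le_div_iff₀ (by positivity)]
              linarith
          _ = (4 / (2 * b)) ^ α * r ^ α := Real.mul_rpow (by positivity) hr'.le
          _ ≤ Λ * r ^ α := mul_le_mul_of_nonneg_right hΛa (Real.rpow_nonneg hr'.le _)
      calc volume {s : unitInterval | dist (curve n ω s) z < r} ≤ 1 := prob_le_one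
        _ = ENNReal.ofReal 1 := ENNReal.ofReal_one.symm
        _ ≤ ENNReal.ofReal (Λ * r ^ α) := ENNReal.ofReal_le_ofReal h5
  calc perc.real {ω : Conf | curve n ω ∉ H443P.OG α Λ r0} ≤ _ := measureReal_mono hsub
    _ ≤ _ := measureReal_union_le _ _
    _ ≤ ε / 2 + ε / 2 := add_le_add hstay hO
    _ = ε := by ring

variable {ν : ℕ → ℕ} (hν : Tendsto ν atTop atTop)
    {μ : ProbabilityMeasure C(unitInterval, ℂ)} (hμ : Tendsto (fun i => lawH (ν i)) atTop (𝓝 μ))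

include hν hμ

theorem limit_occ {C : ℝ} (hC : 0 < C) (hU : TwoUp C (1/4)) (hS : TaskSum)
    {a A : ℝ} (ha : 0 < a) (hA : 0 < A)
    (hup : ∀ (n : ℕ) (x : ℝ), 1 ≤ n → 0 < x →
      perc.real {ω | x * (n : ℝ) ^ (4/7 : ℝ) ≤ reach n ω} ≤ A * Real.exp (-(a * x ^ (1/2 : ℝ))))
    {α : ℝ} (hα0 : 0 < α) (hα : α < 7/4) :
    ∀ᵐ f : C(unitInterval, ℂ) ∂(μ : Measure C(unitInterval, ℂ)), ∃ Λ : ℝ, 0 < Λ ∧
      ∀ (z : ℂ) (r : ℝ), 0 < r →
      volume {s : unitInterval | dist (f s) z < r} ≤ ENNReal.ofReal (Λ * r ^ α) := by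
  have hsc : Tendsto (fun i => (ν i : ℝ) ^ (-(4/7) : ℝ)) atTop (𝓝 0) :=
    (tendsto_rpow_neg_atTop (by norm_num : (0:ℝ) < 4/7)).comp
      (tendsto_natCast_atTop_atTop.comp hν)
  rw [ae_iff, ← nonpos_iff_eq_zero]
  apply ENNReal.le_of_forall_pos_le_add
  intro ε hε _
  obtain ⟨Λ, hΛ, H⟩ := mesh_occ hC hU hS ha hA hup hα0 hα (ε := (ε : ℝ)) (by exact_mod_cast hε)
  rw [zero_add]
  set G : ℕ → Set C(unitInterval, ℂ) := fun m => H443P.OG α Λ (1 / ((m : ℝ) + 1)) with hG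
  have hGc : ∀ m, IsClosed (G m) := fun m => H443P.og_closed α Λ _
  have hm : ∀ m, (μ : Measure C(unitInterval, ℂ)) (G m)ᶜ ≤ ENNReal.ofReal ε := by
    intro m
    apply limit_closedC hμ (hGc m)
    filter_upwards [hsc.eventually (ge_mem_nhds (show (0:ℝ) < 1 / ((m : ℝ) + 1) by positivity)),
      hν.eventually_ge_atTop 1] with i hi hi1
    rw [lawH_apply _ (hGc m).measurableSet.compl]
    apply ENNReal.ofReal_le_ofReal
    exact H (1 / ((m : ℝ) + 1)) (by positivity) (ν i) hi1 hi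
  have hmono : Monotone fun m => (G m)ᶜ := by
    intro m m' hmm
    apply Set.compl_subset_compl.mpr
    intro p hp z r hr hr'
    refine hp z r (le_trans ?_ hr) hr'
    apply one_div_le_one_div_of_le (by positivity)
    have : (m : ℝ) ≤ m' := by exact_mod_cast hmm
    linarith
  have hsub : {f : C(unitInterval, ℂ) | ¬ ∃ Λ : ℝ, 0 < Λ ∧ ∀ (z : ℂ) (r : ℝ), 0 < r →
      volume {s : unitInterval | dist (f s) z < r} ≤ ENNReal.ofReal (Λ * r ^ α)} ⊆
      ⋃ m, (G m)ᶜ := by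
    intro p hp
    by_contra hcon
    apply hp
    refine ⟨Λ, hΛ, fun z r hr => ?_⟩
    obtain ⟨m, hm⟩ := exists_nat_one_div_lt hr
    have hpm : p ∈ G m := by
      by_contra h
      exact hcon (Set.mem_iUnion.mpr ⟨m, h⟩)
    exact hpm z r hm.le hr
  refine (measure_mono hsub).trans ?_
  rw [hmono.measure_iUnion]
  refine iSup_le fun m => (hm m).trans (le_of_eq ?_)
  exact ENNReal.ofReal_coe_nnreal

/-- All exponents at the same time. -/
theorem limit_occ_all {C : ℝ} (hC : 0 < C) (hU : TwoUp C (1/4)) (hS : TaskSum)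
    {a A : ℝ} (ha : 0 < a) (hA : 0 < A)
    (hup : ∀ (n : ℕ) (x : ℝ), 1 ≤ n → 0 < x →
      perc.real {ω | x * (n : ℝ) ^ (4/7 : ℝ) ≤ reach n ω} ≤ A * Real.exp (-(a * x ^ (1/2 : ℝ)))) :
    ∀ᵐ f : C(unitInterval, ℂ) ∂(μ : Measure C(unitInterval, ℂ)), ∀ α : ℝ, 0 < α → α < 7/4 →
      ∃ Λ : ℝ, 0 < Λ ∧ ∀ (z : ℂ) (r : ℝ), 0 < r →
        volume {s : unitInterval | dist (f s) z < r} ≤ ENNReal.ofReal (Λ * r ^ α) := by
  have h : ∀ᵐ f : C(unitInterval, ℂ) ∂(μ : Measure C(unitInterval, ℂ)), ∀ m : ℕ,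
      ∃ Λ : ℝ, 0 < Λ ∧ ∀ (z : ℂ) (r : ℝ), 0 < r →
      volume {s : unitInterval | dist (f s) z < r} ≤
        ENNReal.ofReal (Λ * r ^ (7/4 - 1/((m:ℝ)+2))) := by
    rw [ae_all_iff]
    intro m
    exact limit_occ hν hμ hC hU hS ha hA hup (H984N.Final_alpha m).1 (H984N.Final_alpha m).2
  filter_upwards [h] with p hp α hα0 hα
  have hev : ∀ᶠ m : ℕ in atTop, 1/((m:ℝ)+2) < 7/4 - α :=
    H984N.Final_tend.eventually (gt_mem_nhds (by linarith))
  obtain ⟨m, hm⟩ := hev.exists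
  obtain ⟨Λ, hΛ, h⟩ := hp m
  refine ⟨max Λ 1, by positivity, fun z r hr => ?_⟩
  rcases le_or_gt r 1 with h1 | h1
  · refine (h z r hr).trans (ENNReal.ofReal_le_ofReal ?_)
    have h2 : r ^ (7/4 - 1/((m:ℝ)+2)) ≤ r ^ α :=
      Real.rpow_le_rpow_of_exponent_ge hr h1 (by linarith)
    exact mul_le_mul (le_max_left _ _) h2 (Real.rpow_nonneg hr.le _) (by positivity)
  · have h2 : 1 ≤ max Λ 1 * r ^ α := by
      have := Real.one_le_rpow h1.le hα0.le
      nlinarith [le_max_right Λ 1]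
    calc volume {s : unitInterval | dist (p s) z < r} ≤ 1 := prob_le_one
      _ = ENNReal.ofReal 1 := ENNReal.ofReal_one.symm
      _ ≤ ENNReal.ofReal (max Λ 1 * r ^ α) := ENNReal.ofReal_le_ofReal h2

end H443Q
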