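import Pool.Agent.H443R3.UD.Occ

/-!
Uniform occupation bound for the exploration path: all squares at all scales.
-/

namespace H443P

open H974 Finset H342P H984P H984N H443U

theorem geom_le {n : ℝ} (hn : 1 ≤ n) (M : ℕ) (hM : (2:ℝ) ^ M ≤ 2 * n) :
    ∑ m ∈ Finset.range (M + 1), (2:ℝ) ^ m / n ≤ 4 := by
  have h : ∑ m ∈ Finset.range (M + 1), (2:ℝ) ^ m = 2 ^ (M + 1) - 1 := by
    rw [geom_sum_eq (by norm_num)]
    norm_num
  rw [← Finset.sum_div, h, div_le_iff₀ (by linarith), pow_succ]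
  linarith

theorem NQ_union {D : Dm} {F : Finset Edg} (Q : Finset Vtx) (N : Finset (ℤ × ℤ))
    (s : ℤ × ℤ → Finset Vtx) (h : Q ⊆ N.biUnion s) : NQ D Q F ≤ ∑ p ∈ N, NQ D (s p) F := by
  classical
  unfold NQ
  have h1 : Q.filter (VV D F) ⊆ N.biUnion (fun p => (s p).filter (VV D F)) := by
    intro v hv
    rw [Finset.mem_filter] at hv
    obtain ⟨p, hp, hv'⟩ := Finset.mem_biUnion.mp (h hv.1)
    exact Finset.mem_biUnion.mpr ⟨p, hp, Finset.mem_filter.mpr ⟨hv', hv.2⟩⟩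
  exact (Finset.card_le_card h1).trans Finset.card_biUnion_le

/-- The vertices of the rectangle at distance at most `r` from `v0`. -/
noncomputable def bl (D : Dm) (v0 : Vtx) (r : ℝ) : Finset Vtx :=
  (rectV D).filter (fun v => ((H443U.sd v v0 : ℤ) : ℝ) ≤ r)

theorem bl_cover {D : Dm} {v0 : Vtx} {r : ℝ} {a : ℕ} (ha : 1 ≤ a) (hr : r < a) :
    bl D v0 r ⊆ (Finset.Icc (v0.1 / a - 1) (v0.1 / a + 1) ×ˢ
      Finset.Icc (v0.2 / a - 1) (v0.2 / a + 1)).biUnion (sq D a) := by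
  intro v hv
  unfold bl at hv
  rw [Finset.mem_filter] at hv
  obtain ⟨hv, hs⟩ := hv
  have ha' : (0:ℤ) < a := by omega
  have hs' : H443U.sd v v0 < a := by
    have : ((H443U.sd v v0 : ℤ) : ℝ) < ((a : ℤ) : ℝ) := by
      push_cast
      linarith
    exact_mod_cast this
  have key : ∀ x y : ℤ, |x - y| < a → y / a - 1 ≤ x / a ∧ x / a ≤ y / a + 1 := by
    intro x y h
    rw [abs_lt] at h
    have g1 := Int.ediv_mul_le x ha'.ne'
    have g2 := Int.lt_ediv_add_one_mul_self x ha'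
    have g3 := Int.ediv_mul_le y ha'.ne'
    have g4 := Int.lt_ediv_add_one_mul_self y ha'
    constructor
    · have : (y / a - 1) * (a:ℤ) < (x / a + 1) * a := by
        have e : (y / a - 1) * (a:ℤ) = y / a * a - a := by ring
        rw [e]; omega
      have := lt_of_mul_lt_mul_right this ha'.le
      omega
    · have : (x / a) * (a:ℤ) < (y / a + 2) * a := by
        have e : (y / a + 2) * (a:ℤ) = (y / a + 1) * a + a := by ring
        rw [e]; omega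
      have := lt_of_mul_lt_mul_right this ha'.le
      omega
  unfold H443U.sd at hs'
  rw [max_lt_iff] at hs'
  have k1 := key v.1 v0.1 hs'.1
  have k2 := key v.2 v0.2 hs'.2
  rw [Finset.mem_biUnion]
  refine ⟨(v.1 / a, v.2 / a), ?_, ?_⟩
  · rw [Finset.mem_product, Finset.mem_Icc, Finset.mem_Icc]
    exact ⟨k1, k2⟩
  · unfold sq
    rw [Finset.mem_filter]
    exact ⟨hv, rfl, rfl⟩

/-- Uniform occupation bound. -/
theorem occ {C : ℝ} (hC : 0 < C) (hU : TwoUp C (1/4)) (hS : TaskSum) {α ε : ℝ} (hα0 : 0 < α)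
    (hα : α < 7/4) (hε : 0 < ε) :
    ∃ Λ : ℝ, 0 < Λ ∧ ∀ (D : Dm) (n : ℝ), D.Ok → 1 ≤ n → ((D.r - D.l : ℤ) : ℝ) ≤ n →
      (D.h : ℝ) ≤ n → 1 - ε ≤ P D.edges (fun F => ∀ (v0 : Vtx) (r : ℝ), 1 ≤ r → r ≤ n →
        (NQ D (bl D v0 r) F : ℝ) ≤ Λ * n ^ (7/4 : ℝ) * (r / n) ^ α) := by
  classical
  have hγ : 0 < 7/4 - α := by linarith
  obtain ⟨k, hk⟩ := exists_nat_ge (3 / (7/4 - α))
  have hk3 : 3 ≤ (7/4 - α) * k := by
    rw [div_le_iff₀ hγ] at hk
    linarith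
  have hk1 : 1 ≤ k := by
    rcases Nat.eq_zero_or_pos k with h | h
    · rw [h] at hk3; norm_num at hk3
    · exact h
  obtain ⟨K, hK, htail⟩ := sq_tail hC hU hS k
  set x : ℝ := (7/4 - α) * k with hx
  set Λ0 : ℝ := max (2 * k + 1) (100 * K * 2 ^ x / ε) with hΛ0
  have hΛk : (2 * k : ℝ) ≤ Λ0 := le_trans (by linarith) (le_max_left _ _)
  have hΛ1 : 1 ≤ Λ0 := le_trans (by have : (0:ℝ) ≤ k := Nat.cast_nonneg k; linarith) (le_max_left _ _)
  have hΛε : 100 * K * 2 ^ x / ε ≤ Λ0 := le_max_right _ _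
  have hΛ0' : 0 < Λ0 := by linarith
  refine ⟨36 * Λ0, by positivity, fun D n hD hn hw hh => ?_⟩
  have hn0 : 0 < n := by linarith
  set lam : ℕ → ℝ := fun m => Λ0 * n ^ (7/4 : ℝ) * ((2:ℝ) ^ m / n) ^ α with hlam
  set M : ℕ := Nat.log 2 ⌊2 * n⌋₊ with hM
  have hfl : ⌊2 * n⌋₊ ≠ 0 := by
    have : 1 ≤ ⌊2 * n⌋₊ := Nat.le_floor (by push_cast; linarith)
    omega
  have hMle : ∀ m ≤ M, (2:ℝ) ^ m ≤ 2 * n := by
    intro m hm
    have h1 : 2 ^ m ≤ 2 ^ M := Nat.pow_le_pow_right (by norm_num) hm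
    have h2 : 2 ^ M ≤ ⌊2 * n⌋₊ := Nat.pow_log_le_self 2 hfl
    have h3 : ((2 ^ m : ℕ) : ℝ) ≤ (⌊2 * n⌋₊ : ℝ) := by exact_mod_cast h1.trans h2
    have h4 := Nat.floor_le (by linarith : 0 ≤ 2 * n)
    push_cast at h3
    linarith
  set Bad : Finset Edg → Prop := fun F => ∃ m ∈ Finset.range (M + 1), ∃ p ∈ idx D (2 ^ m),
    lam m < (NQ D (sq D (2 ^ m) p) F : ℝ) with hBad
  have hlampos : ∀ m, Λ0 ≤ lam m := by
    intro m
    have h2m : (1:ℝ) ≤ (2:ℝ) ^ m := one_le_pow₀ (by norm_num)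
    have e : n ^ (7/4 : ℝ) * ((2:ℝ) ^ m / n) ^ α = n ^ (7/4 - α) * ((2:ℝ) ^ m) ^ α := by
      rw [Real.div_rpow (by positivity) hn0.le, Real.rpow_sub hn0]
      field_simp
    show Λ0 ≤ Λ0 * n ^ (7/4 : ℝ) * ((2:ℝ) ^ m / n) ^ α
    rw [mul_assoc, e]
    have h1 : 1 ≤ n ^ (7/4 - α) := Real.one_le_rpow hn hγ.le
    have h2 : 1 ≤ ((2:ℝ) ^ m) ^ α := Real.one_le_rpow h2m hα0.le
    have h3 : 1 ≤ n ^ (7/4 - α) * ((2:ℝ) ^ m) ^ α := one_le_mul_of_one_le_of_one_le h1 h2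
    nlinarith
  have hterm : ∀ m ≤ M, ∀ p ∈ idx D (2 ^ m),
      P D.edges (fun F => lam m < (NQ D (sq D (2 ^ m) p) F : ℝ)) ≤
        K * (Λ0⁻¹ * ((2:ℝ) ^ m / n) ^ x) := by
    intro m hm p _
    have h1 := htail D hD (2 ^ m) (Nat.one_le_two_pow) p (lam m) (hΛk.trans (hlampos m))
      (hΛ0'.trans_le (hlampos m))
    refine h1.trans (mul_le_mul_of_nonneg_left ?_ hK.le)
    have hq : (0:ℝ) < (2:ℝ) ^ m / n := by positivity
    have e1 : (((2 ^ m : ℕ) : ℝ)) ^ (7/4 : ℝ) / lam m = Λ0⁻¹ * ((2:ℝ) ^ m / n) ^ (7/4 - α) := by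
      show (((2 ^ m : ℕ) : ℝ)) ^ (7/4 : ℝ) / (Λ0 * n ^ (7/4 : ℝ) * ((2:ℝ) ^ m / n) ^ α) = _
      rw [Real.rpow_sub hq, Real.div_rpow (by positivity) hn0.le (7/4 : ℝ)]
      push_cast
      field_simp
    rw [e1, mul_pow]
    have e2 : (((2:ℝ) ^ m / n) ^ (7/4 - α)) ^ k = ((2:ℝ) ^ m / n) ^ x := by
      rw [← Real.rpow_natCast, ← Real.rpow_mul hq.le]
    rw [e2]
    refine mul_le_mul_of_nonneg_right ?_ (Real.rpow_nonneg hq.le _)
    rw [inv_pow]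
    exact inv_anti₀ hΛ0' (le_self_pow₀ hΛ1 (by omega))
  have hbad : P D.edges Bad ≤ ε := by
    have s1 : P D.edges Bad ≤ ∑ m ∈ Finset.range (M + 1), P D.edges (fun F => ∃ p ∈ idx D (2 ^ m),
        lam m < (NQ D (sq D (2 ^ m) p) F : ℝ)) := Pr_exists_le okh _ _ _
    have s2 : ∀ m ∈ Finset.range (M + 1), P D.edges (fun F => ∃ p ∈ idx D (2 ^ m),
        lam m < (NQ D (sq D (2 ^ m) p) F : ℝ)) ≤ 25 * K * Λ0⁻¹ * 2 ^ x * ((2:ℝ) ^ m / n) := by
      intro m hm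
      rw [Finset.mem_range] at hm
      have hmM : m ≤ M := by omega
      refine (Pr_exists_le okh _ _ _).trans ((Finset.sum_le_sum (hterm m hmM)).trans ?_)
      rw [Finset.sum_const, nsmul_eq_mul]
      have hc := idx_card hD (a := 2 ^ m) Nat.one_le_two_pow hn hw hh (by
        push_cast; exact hMle m hmM)
      push_cast at hc
      have hq : (0:ℝ) < (2:ℝ) ^ m / n := by positivity
      have hq2 : (2:ℝ) ^ m / n ≤ 2 := by
        rw [div_le_iff₀ hn0]; exact hMle m hmM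
      calc ((idx D (2 ^ m)).card : ℝ) * (K * (Λ0⁻¹ * ((2:ℝ) ^ m / n) ^ x))
          ≤ (25 * (n / 2 ^ m) ^ 2) * (K * (Λ0⁻¹ * ((2:ℝ) ^ m / n) ^ x)) :=
            mul_le_mul_of_nonneg_right hc (by positivity)
        _ = 25 * K * Λ0⁻¹ * (((2:ℝ) ^ m / n) ^ x * (n / 2 ^ m) ^ 2) := by ring
        _ = 25 * K * Λ0⁻¹ * (((2:ℝ) ^ m / n) ^ (x - 3) * ((2:ℝ) ^ m / n)) := by
            congr 1
            rw [Real.rpow_sub hq, show (3:ℝ) = ((3:ℕ):ℝ) by norm_num, Real.rpow_natCast]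
            field_simp
        _ ≤ 25 * K * Λ0⁻¹ * (2 ^ x * ((2:ℝ) ^ m / n)) := by
            refine mul_le_mul_of_nonneg_left ?_ (by positivity)
            refine mul_le_mul_of_nonneg_right ?_ hq.le
            calc ((2:ℝ) ^ m / n) ^ (x - 3) ≤ (2:ℝ) ^ (x - 3) :=
                  Real.rpow_le_rpow hq.le hq2 (by linarith)
              _ ≤ (2:ℝ) ^ x := Real.rpow_le_rpow_of_exponent_le (by norm_num) (by linarith)
        _ = _ := by ring
    refine s1.trans ((Finset.sum_le_sum s2).trans ?_)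
    rw [← Finset.mul_sum]
    have s3 := geom_le hn M (hMle M le_rfl)
    have s4 : 0 ≤ 25 * K * Λ0⁻¹ * 2 ^ x := by positivity
    calc 25 * K * Λ0⁻¹ * 2 ^ x * ∑ m ∈ Finset.range (M + 1), (2:ℝ) ^ m / n
        ≤ 25 * K * Λ0⁻¹ * 2 ^ x * 4 := mul_le_mul_of_nonneg_left s3 s4
      _ = (100 * K * 2 ^ x) * Λ0⁻¹ := by ring
      _ ≤ ε := by
          rw [← div_eq_mul_inv, div_le_iff₀ hΛ0']
          rw [div_le_iff₀ hε] at hΛε
          linarith
  have hnot : P D.edges (fun F => ¬ Bad F) = 1 - P D.edges Bad := Pr_not _ _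
  refine le_trans ?_ (Pr_mono okh (A := fun F => ¬ Bad F) ?_)
  · have : Pr (fun _ => (1/2:ℝ)) D.edges (fun F => ¬ Bad F) = 1 - P D.edges Bad := hnot
    rw [this]; linarith
  · intro F hF hgood v0 r hr1 hrn
    obtain ⟨m', hm1, hm2⟩ := exists_nat_pow_near hr1 (by norm_num : (1:ℝ) < 2)
    set m := m' + 1 with hmdef
    have ha2 : (2:ℝ) ^ m ≤ 2 * r := by
      rw [hmdef, pow_succ]; linarith
    have hmM : m ≤ M := by
      apply Nat.le_log_of_pow_le (by norm_num)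
      apply Nat.le_floor
      push_cast
      linarith
    have hcov := NQ_union (D := D) (F := F) _ _ _ (bl_cover (D := D) (v0 := v0) (r := r)
      (a := 2 ^ m) Nat.one_le_two_pow (by push_cast; exact hm2))
    have hbound : ∀ p ∈ (Finset.Icc (v0.1 / ((2 ^ m : ℕ) : ℤ) - 1) (v0.1 / ((2 ^ m : ℕ) : ℤ) + 1) ×ˢ
        Finset.Icc (v0.2 / ((2 ^ m : ℕ) : ℤ) - 1) (v0.2 / ((2 ^ m : ℕ) : ℤ) + 1)),
        (NQ D (sq D (2 ^ m) p) F : ℝ) ≤ lam m := by
      intro p _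
      by_cases hp : p ∈ idx D (2 ^ m)
      · by_contra hcon
        exact hgood ⟨m, Finset.mem_range.mpr (by omega), p, hp, not_le.mp hcon⟩
      · rw [sq_empty Nat.one_le_two_pow hp]
        have : NQ D ∅ F = 0 := by unfold NQ; simp
        rw [this]
        push_cast
        exact hΛ0'.le.trans (hlampos m)
    have hsum : (NQ D (bl D v0 r) F : ℝ) ≤ 9 * lam m := by
      have h1 : (NQ D (bl D v0 r) F : ℝ) ≤ ∑ p ∈ (Finset.Icc (v0.1 / ((2 ^ m : ℕ) : ℤ) - 1)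
          (v0.1 / ((2 ^ m : ℕ) : ℤ) + 1) ×ˢ Finset.Icc (v0.2 / ((2 ^ m : ℕ) : ℤ) - 1)
          (v0.2 / ((2 ^ m : ℕ) : ℤ) + 1)), (NQ D (sq D (2 ^ m) p) F : ℝ) := by
        exact_mod_cast hcov
      refine h1.trans ((Finset.sum_le_sum hbound).trans ?_)
      rw [Finset.sum_const, nsmul_eq_mul, Finset.card_product, Int.card_Icc, Int.card_Icc]
      have c1 : ∀ y : ℤ, (y + 1 + 1 - (y - 1)).toNat = 3 := fun y => by omega
      rw [c1, c1]
      norm_num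
    refine hsum.trans ?_
    have hq : (0:ℝ) ≤ (2:ℝ) ^ m / n := by positivity
    have h5 : ((2:ℝ) ^ m / n) ^ α ≤ 4 * (r / n) ^ α := by
      calc ((2:ℝ) ^ m / n) ^ α ≤ (2 * (r / n)) ^ α := by
            apply Real.rpow_le_rpow hq _ hα0.le
            rw [← mul_div_assoc]
            gcongr
        _ = 2 ^ α * (r / n) ^ α := Real.mul_rpow (by norm_num) (by positivity)
        _ ≤ 4 * (r / n) ^ α := by
            refine mul_le_mul_of_nonneg_right ?_ (Real.rpow_nonneg (by positivity) _)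
            calc (2:ℝ) ^ α ≤ (2:ℝ) ^ (2:ℝ) :=
                  Real.rpow_le_rpow_of_exponent_le (by norm_num) (by linarith)
              _ = 4 := by norm_num
    show 9 * (Λ0 * n ^ (7/4 : ℝ) * ((2:ℝ) ^ m / n) ^ α) ≤ _
    calc 9 * (Λ0 * n ^ (7/4 : ℝ) * ((2:ℝ) ^ m / n) ^ α)
        ≤ 9 * (Λ0 * n ^ (7/4 : ℝ) * (4 * (r / n) ^ α)) := by
          refine mul_le_mul_of_nonneg_left ?_ (by norm_num)
          refine mul_le_mul_of_nonneg_left h5 ?_
          positivity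
      _ = 36 * Λ0 * n ^ (7/4 : ℝ) * (r / n) ^ α := by ring

end H443P
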