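import Pool.Agent.H443R3.UD.KPH
import Pool.Agent.H984R4.HN.SumB

/-!
Uniform occupation bound for the exploration path.
-/

namespace H443Q

open H974 Finset H342P H984P H984H H443U

theorem w_anti {m m' : ℤ} (h : m ≤ m') : w m' ≤ w m := by
  by_cases h0 : m ≤ 0
  · have e : w m = 1 := by unfold w; rw [if_pos h0]
    rw [e]; exact w_le_one _
  · unfold w
    rw [if_neg (by omega), if_neg h0]
    exact Real.rpow_le_rpow_of_nonpos (by exact_mod_cast (by omega : 0 < m))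
      (by exact_mod_cast h) (by norm_num)

theorem w_eq (m : ℤ) : w m = ph 1 (1/4) m := by
  unfold w ph
  split_ifs
  · rfl
  · rw [one_mul]

theorem line_sum (a : ℕ) (ha : 1 ≤ a) (c l : ℤ) :
    ∑ x ∈ Finset.Icc c (c + a), w |x - l| ≤ 5 * (a : ℝ) ^ (3/4 : ℝ) := by
  have key : ∀ k : ℤ, c ≤ k → k ≤ c + a →
      ∑ x ∈ Finset.Icc c (c + a), w |k - x| ≤ 5 * (a : ℝ) ^ (3/4 : ℝ) := by
    intro k h1 h2
    have h := sumb_one (b := 1/4) (by norm_num) (by norm_num) (n := a) (by exact_mod_cast ha) a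
      le_rfl k (Finset.Icc c (c + a)) (fun x hx => by
        rw [Finset.mem_Icc] at hx
        rw [abs_le]; omega)
    simp only [← w_eq] at h
    refine h.trans ?_
    have e : (1 - 1/4 : ℝ) = 3/4 := by norm_num
    rw [e]
    have hp : (0:ℝ) ≤ (a : ℝ) ^ (3/4 : ℝ) := Real.rpow_nonneg (Nat.cast_nonneg _) _
    have e2 : 2 * ((1 + 1 / (3/4 : ℝ)) * (a : ℝ) ^ (3/4 : ℝ)) = (14/3) * (a : ℝ) ^ (3/4 : ℝ) := by
      ring
    rw [e2]
    nlinarith
  rcases lt_trichotomy l c with h | h | h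
  · refine le_trans (Finset.sum_le_sum fun x hx => ?_) (key c le_rfl (by omega))
    rw [Finset.mem_Icc] at hx
    apply w_anti
    rw [abs_of_nonpos (by omega), abs_of_nonneg (by omega)]
    omega
  · subst h
    refine le_trans (Finset.sum_le_sum fun x hx => ?_) (key l le_rfl (by omega))
    rw [abs_sub_comm]
  · rcases le_or_gt l (c + a) with h' | h'
    · refine le_trans (Finset.sum_le_sum fun x hx => ?_) (key l h.le h')
      rw [abs_sub_comm]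
    · refine le_trans (Finset.sum_le_sum fun x hx => ?_) (key (c + a) (by omega) le_rfl)
      rw [Finset.mem_Icc] at hx
      apply w_anti
      rw [abs_of_nonneg (by omega), abs_of_nonpos (by omega)]
      omega

theorem bd_sum {D : Dm} (a : ℕ) (ha : 1 ≤ a) (c d : ℤ) (Q : Finset Vtx)
    (hQ : Q ⊆ Finset.Icc c (c + a) ×ˢ Finset.Icc d (d + a)) (hb : ∀ v ∈ Q, 0 ≤ D.bd v) :
    ∑ v ∈ Q, w (D.bd v) ≤ 40 * (a : ℝ) ^ (7/4 : ℝ) := by
  have h1 : ∀ v ∈ Q, w (D.bd v) ≤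
      (w |v.1 - D.l| + w |v.1 - D.r|) + (w |v.2 - 0| + w |v.2 - D.h|) := by
    intro v hv
    have p1 := (w_pos |v.1 - D.l|).le
    have p2 := (w_pos |v.1 - D.r|).le
    have p3 := (w_pos |v.2 - 0|).le
    have p4 := (w_pos |v.2 - D.h|).le
    have hv0 := hb v hv
    have hcase : |v.1 - D.l| = D.bd v ∨ |v.1 - D.r| = D.bd v ∨ |v.2 - 0| = D.bd v ∨
        |v.2 - D.h| = D.bd v := by
      unfold Dm.bd at hv0 ⊢
      rw [abs_of_nonneg (by omega : 0 ≤ v.1 - D.l), abs_of_nonpos (by omega : v.1 - D.r ≤ 0),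
        abs_of_nonneg (by omega : 0 ≤ v.2 - 0), abs_of_nonpos (by omega : v.2 - D.h ≤ 0)]
      omega
    rcases hcase with h | h | h | h
    · rw [← h]; linarith
    · rw [← h]; linarith
    · rw [← h]; linarith
    · rw [← h]; linarith
  refine (Finset.sum_le_sum h1).trans ?_
  have h2 : ∑ v ∈ Q, ((w |v.1 - D.l| + w |v.1 - D.r|) + (w |v.2 - 0| + w |v.2 - D.h|)) ≤
      ∑ v ∈ Finset.Icc c (c + a) ×ˢ Finset.Icc d (d + a),
        ((w |v.1 - D.l| + w |v.1 - D.r|) + (w |v.2 - 0| + w |v.2 - D.h|)) :=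
    Finset.sum_le_sum_of_subset_of_nonneg hQ fun v _ _ => by
      have p1 := (w_pos |v.1 - D.l|).le
      have p2 := (w_pos |v.1 - D.r|).le
      have p3 := (w_pos |v.2 - 0|).le
      have p4 := (w_pos |v.2 - D.h|).le
      linarith
  refine h2.trans ?_
  have hcard : ∀ e : ℤ, ((Finset.Icc e (e + a)).card : ℝ) ≤ 2 * a := by
    intro e
    rw [Int.card_Icc]
    have : (e + a + 1 - e).toNat = a + 1 := by omega
    rw [this]
    push_cast
    have : (1:ℝ) ≤ a := by exact_mod_cast ha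
    linarith
  have hX : ∀ l : ℤ, ∑ v ∈ Finset.Icc c (c + a) ×ˢ Finset.Icc d (d + a), w |v.1 - l| ≤
      (2 * a) * (5 * (a : ℝ) ^ (3/4 : ℝ)) := by
    intro l
    rw [Finset.sum_product_right]
    have : ∀ y ∈ Finset.Icc d (d + (a:ℤ)), ∑ x ∈ Finset.Icc c (c + (a:ℤ)), w |x - l| ≤
        5 * (a : ℝ) ^ (3/4 : ℝ) := fun y _ => line_sum a ha c l
    refine (Finset.sum_le_sum this).trans ?_
    rw [Finset.sum_const, nsmul_eq_mul]
    exact mul_le_mul_of_nonneg_right (hcard d) (by positivity)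
  have hY : ∀ l : ℤ, ∑ v ∈ Finset.Icc c (c + a) ×ˢ Finset.Icc d (d + a), w |v.2 - l| ≤
      (2 * a) * (5 * (a : ℝ) ^ (3/4 : ℝ)) := by
    intro l
    rw [Finset.sum_product]
    have : ∀ x ∈ Finset.Icc c (c + (a:ℤ)), ∑ y ∈ Finset.Icc d (d + (a:ℤ)), w |y - l| ≤
        5 * (a : ℝ) ^ (3/4 : ℝ) := fun y _ => line_sum a ha d l
    refine (Finset.sum_le_sum this).trans ?_
    rw [Finset.sum_const, nsmul_eq_mul]
    exact mul_le_mul_of_nonneg_right (hcard c) (by positivity)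
  rw [Finset.sum_add_distrib, Finset.sum_add_distrib, Finset.sum_add_distrib]
  have ha0 : (0:ℝ) < a := by exact_mod_cast (by omega : 0 < a)
  have e : (a : ℝ) ^ (7/4 : ℝ) = a * (a : ℝ) ^ (3/4 : ℝ) := by
    rw [show (7/4 : ℝ) = 1 + 3/4 by norm_num, Real.rpow_add ha0, Real.rpow_one]
  rw [e]
  have x1 := hX D.l
  have x2 := hX D.r
  have y1 := hY 0
  have y2 := hY D.h
  linarith

/-- The vertices of the rectangle. -/
noncomputable def rectV (D : Dm) : Finset Vtx := Finset.Icc D.l D.r ×ˢ Finset.Icc 0 D.h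

/-- The vertices of the rectangle in the square number `p` of side `a`. -/
noncomputable def sq (D : Dm) (a : ℕ) (p : ℤ × ℤ) : Finset Vtx :=
  (rectV D).filter (fun v => v.1 / a = p.1 ∧ v.2 / a = p.2)

/-- The numbers of the squares which meet the rectangle. -/
noncomputable def idx (D : Dm) (a : ℕ) : Finset (ℤ × ℤ) :=
  Finset.Icc (D.l / a) (D.r / a) ×ˢ Finset.Icc 0 (D.h / a)

theorem bd_rectV {D : Dm} {v : Vtx} (hv : v ∈ rectV D) : 0 ≤ D.bd v := by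
  unfold rectV at hv
  rw [Finset.mem_product, Finset.mem_Icc, Finset.mem_Icc] at hv
  unfold Dm.bd
  omega

theorem sq_sub {D : Dm} {a : ℕ} (ha : 1 ≤ a) (p : ℤ × ℤ) :
    sq D a p ⊆ Finset.Icc (p.1 * a) (p.1 * a + a) ×ˢ Finset.Icc (p.2 * a) (p.2 * a + a) := by
  intro v hv
  unfold sq at hv
  rw [Finset.mem_filter] at hv
  obtain ⟨-, h1, h2⟩ := hv
  have ha' : (0:ℤ) < a := by omega
  have g1 := Int.ediv_mul_le v.1 ha'.ne'
  have g2 := Int.lt_ediv_add_one_mul_self v.1 ha'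
  have g3 := Int.ediv_mul_le v.2 ha'.ne'
  have g4 := Int.lt_ediv_add_one_mul_self v.2 ha'
  rw [h1] at g1 g2
  rw [h2] at g3 g4
  rw [Finset.mem_product, Finset.mem_Icc, Finset.mem_Icc]
  have e1 : (p.1 + 1) * (a:ℤ) = p.1 * a + a := by ring
  have e2 : (p.2 + 1) * (a:ℤ) = p.2 * a + a := by ring
  rw [e1] at g2
  rw [e2] at g4
  exact ⟨⟨g1, g2.le⟩, ⟨g3, g4.le⟩⟩

theorem sq_empty {D : Dm} {a : ℕ} (ha : 1 ≤ a) {p : ℤ × ℤ} (hp : p ∉ idx D a) : sq D a p = ∅ := by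
  rw [Finset.eq_empty_iff_forall_notMem]
  intro v hv
  unfold sq at hv
  rw [Finset.mem_filter] at hv
  obtain ⟨h, h1, h2⟩ := hv
  apply hp
  unfold rectV at h
  unfold idx
  rw [Finset.mem_product, Finset.mem_Icc, Finset.mem_Icc] at h ⊢
  have ha' : (0:ℤ) < a := by omega
  rw [← h1, ← h2]
  refine ⟨⟨Int.ediv_le_ediv ha' h.1.1, Int.ediv_le_ediv ha' h.1.2⟩,
    ⟨Int.ediv_nonneg h.2.1 ha'.le, Int.ediv_le_ediv ha' h.2.2⟩⟩

theorem idx_card {D : Dm} (hD : D.Ok) {a : ℕ} (ha : 1 ≤ a) {n : ℝ} (hn : 1 ≤ n)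
    (h1 : ((D.r - D.l : ℤ) : ℝ) ≤ n) (h2 : (D.h : ℝ) ≤ n) (han : (a : ℝ) ≤ 2 * n) :
    ((idx D a).card : ℝ) ≤ 25 * (n / a) ^ 2 := by
  obtain ⟨hl, hr, hh, -, -⟩ := hD
  have ha' : (0:ℤ) < a := by omega
  have ha0 : (0:ℝ) < a := by exact_mod_cast ha'
  unfold idx
  rw [Finset.card_product, Int.card_Icc, Int.card_Icc]
  have e1 : (((D.r / a + 1 - D.l / a).toNat : ℕ) : ℝ) ≤ 5 * (n / a) := by
    have g1 : (D.r / a + 1 - D.l / a) * a ≤ D.r - D.l + 2 * a := by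
      have q1 := Int.ediv_mul_le D.r ha'.ne'
      have q2 := Int.lt_ediv_add_one_mul_self D.l ha'
      have e : (D.r / a + 1 - D.l / a) * a = (D.r / a) * a - ((D.l / a + 1) * a) + 2 * a := by ring
      rw [e]
      omega
    have g2 : 0 ≤ D.r / a + 1 - D.l / a := by
      have := Int.ediv_le_ediv ha' (by omega : D.l ≤ D.r)
      omega
    have g3 : (((D.r / a + 1 - D.l / a).toNat : ℕ) : ℝ) = ((D.r / a + 1 - D.l / a : ℤ) : ℝ) := by
      have := Int.toNat_of_nonneg g2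
      exact_mod_cast congrArg (fun x : ℤ => (x : ℝ)) this
    rw [g3]
    have g4 : ((D.r / a + 1 - D.l / a : ℤ) : ℝ) * a ≤ 5 * n := by
      have : ((D.r / a + 1 - D.l / a : ℤ) : ℝ) * a ≤ ((D.r - D.l : ℤ) : ℝ) + 2 * a := by
        exact_mod_cast g1
      linarith
    rw [← mul_div_assoc, le_div_iff₀ ha0]
    exact g4
  have e2 : (((D.h / a + 1 - 0).toNat : ℕ) : ℝ) ≤ 5 * (n / a) := by
    have g1 : (D.h / a + 1 - 0) * a ≤ D.h + 1 * a := by
      have q1 := Int.ediv_mul_le D.h ha'.ne'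
      have e : (D.h / a + 1 - 0) * a = (D.h / a) * a + 1 * a := by ring
      rw [e]
      omega
    have g2 : 0 ≤ D.h / a + 1 - 0 := by
      have := Int.ediv_nonneg (by omega : 0 ≤ D.h) ha'.le
      omega
    have g3 : (((D.h / a + 1 - 0).toNat : ℕ) : ℝ) = ((D.h / a + 1 - 0 : ℤ) : ℝ) := by
      have := Int.toNat_of_nonneg g2
      exact_mod_cast congrArg (fun x : ℤ => (x : ℝ)) this
    rw [g3]
    have g4 : ((D.h / a + 1 - 0 : ℤ) : ℝ) * a ≤ 5 * n := by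
      have : ((D.h / a + 1 - 0 : ℤ) : ℝ) * a ≤ (D.h : ℝ) + 1 * a := by
        exact_mod_cast g1
      linarith
    rw [← mul_div_assoc, le_div_iff₀ ha0]
    exact g4
  push_cast
  have p1 : (0:ℝ) ≤ (((D.r / a + 1 - D.l / a).toNat : ℕ) : ℝ) := Nat.cast_nonneg _
  have p2 : (0:ℝ) ≤ (((D.h / a + 1 - 0).toNat : ℕ) : ℝ) := Nat.cast_nonneg _
  calc (((D.r / a + 1 - D.l / a).toNat : ℕ) : ℝ) * (((D.h / a + 1 - 0).toNat : ℕ) : ℝ)
      ≤ (5 * (n / a)) * (5 * (n / a)) := mul_le_mul e1 e2 p2 (by positivity)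
    _ = 25 * (n / a) ^ 2 := by ring

/-- Moment bound for one square. -/
theorem sq_moment {C : ℝ} (hC : 0 < C) (hU : TwoUp C (1/4)) (hS : TaskSum) (k : ℕ) :
    ∃ K : ℝ, 0 < K ∧ ∀ (D : Dm), D.Ok → ∀ (a : ℕ), 1 ≤ a → ∀ p : ℤ × ℤ,
      E D.edges (fun F => ((NQ D (sq D a p) F).choose k : ℝ)) ≤ K * (a : ℝ) ^ (7/4 * k : ℝ) := by
  obtain ⟨C', hC', h⟩ := hS k 40
  refine ⟨(6 * (4 * C + 1)) ^ k * C', by positivity, fun D hD a ha p => ?_⟩
  refine (binom_moment hC hU hD a (sq D a p) k).trans ?_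
  rw [mul_assoc]
  refine mul_le_mul_of_nonneg_left ?_ (by positivity)
  refine h D.bd a (p.1 * a) (p.2 * a) (sq D a p) ha (sq_sub ha p) ?_ ?_
  · intro u v
    unfold Dm.bd H443U.sd
    rcases max_cases |u.1 - v.1| |u.2 - v.2| with ⟨hm, hm'⟩ | ⟨hm, hm'⟩ <;> rw [hm] <;>
    rcases abs_cases (u.1 - v.1) with ⟨ha, _⟩ | ⟨ha, _⟩ <;>
    rcases abs_cases (u.2 - v.2) with ⟨ha', _⟩ | ⟨ha', _⟩ <;> omega
  · exact bd_sum a ha _ _ _ (sq_sub ha p) fun v hv =>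
      bd_rectV (Finset.mem_filter.mp hv).1

theorem choose_lower {N k : ℕ} (h : 2 * k ≤ N) :
    ((N : ℝ) / 2) ^ k / k.factorial ≤ (N.choose k : ℝ) := by
  have h1 : (N + 1 - k) ^ k ≤ N.descFactorial k := Nat.pow_sub_le_descFactorial N k
  rw [Nat.descFactorial_eq_factorial_mul_choose] at h1
  have h2 : ((N + 1 - k : ℕ) : ℝ) ^ k ≤ k.factorial * N.choose k := by exact_mod_cast h1
  have h3 : (N : ℝ) / 2 ≤ ((N + 1 - k : ℕ) : ℝ) := by
    rw [Nat.cast_sub (by omega)]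
    push_cast
    have : (2 * k : ℝ) ≤ N := by exact_mod_cast h
    linarith
  rw [div_le_iff₀ (by positivity)]
  calc ((N : ℝ) / 2) ^ k ≤ ((N + 1 - k : ℕ) : ℝ) ^ k := pow_le_pow_left₀ (by positivity) h3 k
    _ ≤ k.factorial * N.choose k := h2
    _ = _ := by ring

/-- Tail bound for one square. -/
theorem sq_tail {C : ℝ} (hC : 0 < C) (hU : TwoUp C (1/4)) (hS : TaskSum) (k : ℕ) :
    ∃ K : ℝ, 0 < K ∧ ∀ (D : Dm), D.Ok → ∀ (a : ℕ), 1 ≤ a → ∀ p : ℤ × ℤ, ∀ lam : ℝ, 2 * k ≤ lam →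
      0 < lam → P D.edges (fun F => lam < (NQ D (sq D a p) F : ℝ)) ≤
        K * ((a : ℝ) ^ (7/4 : ℝ) / lam) ^ k := by
  obtain ⟨K, hK, h⟩ := sq_moment hC hU hS k
  refine ⟨K * (2 ^ k * k.factorial), by positivity, fun D hD a ha p lam h2 hlam => ?_⟩
  have h3 := h D hD a ha p
  set q : ℝ := (lam / 2) ^ k / k.factorial with hq
  have hq0 : 0 < q := by positivity
  have h4 : P D.edges (fun F => lam < (NQ D (sq D a p) F : ℝ)) * q ≤
      E D.edges (fun F => ((NQ D (sq D a p) F).choose k : ℝ)) := by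
    unfold P Pr E
    rw [← Ex_mul_right]
    refine Ex_mono okh fun F _ => ?_
    by_cases hh : lam < (NQ D (sq D a p) F : ℝ)
    · rw [ind_of hh, one_mul]
      have hN : 2 * k ≤ NQ D (sq D a p) F := by
        have : (2 * k : ℝ) ≤ (NQ D (sq D a p) F : ℝ) := h2.trans hh.le
        exact_mod_cast this
      refine le_trans ?_ (choose_lower hN)
      rw [hq]
      gcongr
    · rw [ind_not_of hh, zero_mul]
      positivity
  have h5 : P D.edges (fun F => lam < (NQ D (sq D a p) F : ℝ)) ≤ K * (a : ℝ) ^ (7/4 * k : ℝ) / q := by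
    rw [le_div_iff₀ hq0]
    exact h4.trans h3
  refine h5.trans (le_of_eq ?_)
  have e : (a : ℝ) ^ (7/4 * k : ℝ) = ((a : ℝ) ^ (7/4 : ℝ)) ^ k := by
    rw [← Real.rpow_natCast ((a:ℝ) ^ (7/4 : ℝ)) k, ← Real.rpow_mul (Nat.cast_nonneg _)]
  rw [e, hq]
  rw [div_pow, div_pow]
  field_simp

end H443Q
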