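import Pool.Agent.H443R3.UD.Stmts

set_option autoImplicit false

namespace H443U.Sum

open MeasureTheory Finset H443U

lemma w_pos (m : ℤ) : 0 < w m := by
  unfold w
  split_ifs with h
  · norm_num
  · apply Real.rpow_pos_of_pos
    have : 0 < m := by omega
    exact_mod_cast this

lemma w_le_one (m : ℤ) : w m ≤ 1 := by
  unfold w
  split_ifs with h
  · norm_num
  · apply Real.rpow_le_one_of_one_le_of_nonpos
    · have : 1 ≤ m := by omega
      exact_mod_cast this
    · norm_num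

lemma w_anti {m n : ℤ} (h : m ≤ n) : w n ≤ w m := by
  rcases le_or_gt m 0 with h1 | h1
  · have : w m = 1 := by unfold w; rw [if_pos h1]
    rw [this]
    exact w_le_one n
  · unfold w
    rw [if_neg (by omega), if_neg (by omega)]
    apply Real.rpow_le_rpow_of_nonpos
    · exact_mod_cast h1
    · exact_mod_cast h
    · norm_num

lemma w_two {m m' : ℤ} (h : m' ≤ 2 * m) : w m ≤ 2 * w m' := by
  rcases le_or_gt m 0 with h1 | h1
  · have e1 : w m = 1 := by unfold w; rw [if_pos h1]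
    have e2 : w m' = 1 := by unfold w; rw [if_pos (by omega)]
    rw [e1, e2]; norm_num
  · have h2 : w m ≤ 2 * w (2 * m) := by
      unfold w
      rw [if_neg (by omega), if_neg (by omega)]
      have hm : (0 : ℝ) < m := by exact_mod_cast h1
      push_cast
      rw [Real.mul_rpow (by norm_num) hm.le]
      have h3 : (1 / 2 : ℝ) ≤ (2 : ℝ) ^ (-(1/4) : ℝ) := by
        have : (1 / 2 : ℝ) = (2 : ℝ) ^ (-1 : ℝ) := by
          rw [Real.rpow_neg_one]; norm_num
        rw [this]
        apply Real.rpow_le_rpow_of_exponent_le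
        · norm_num
        · norm_num
      have h4 : 0 < (m : ℝ) ^ (-(1/4) : ℝ) := Real.rpow_pos_of_pos hm _
      nlinarith
    have h3 := w_anti h
    linarith

variable (b : ℤ × ℤ → ℤ) (r : ℤ) (S : Finset (ℤ × ℤ)) (v : ℤ × ℤ)

lemma rad_le_b : rad b r S v ≤ b v :=
  (Finset.min'_le _ _ (Finset.mem_insert_self _ _)).trans (min_le_left _ _)

lemma rad_le_r : rad b r S v ≤ r :=
  (Finset.min'_le _ _ (Finset.mem_insert_self _ _)).trans (min_le_right _ _)

lemma rad_le_sd {u : ℤ × ℤ} (hu : u ∈ S) (hne : u ≠ v) : rad b r S v ≤ sd v u := by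
  apply Finset.min'_le
  apply Finset.mem_insert_of_mem
  apply Finset.mem_image_of_mem
  exact Finset.mem_erase.2 ⟨hne, hu⟩

lemma rad_cases : rad b r S v = b v ∨ rad b r S v = r ∨
    ∃ u ∈ S, u ≠ v ∧ rad b r S v = sd v u := by
  have h := Finset.min'_mem (insert (min (b v) r) ((S.erase v).image (sd v))) (insert_nonempty _ _)
  rw [Finset.mem_insert] at h
  rcases h with h | h
  · rcases min_choice (b v) r with h' | h'
    · left; exact h.trans h'
    · right; left; exact h.trans h'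
  · right; right
    obtain ⟨u, hu, e⟩ := Finset.mem_image.1 h
    rw [Finset.mem_erase] at hu
    exact ⟨u, hu.2, hu.1, e.symm⟩

lemma sd_comm (u v : ℤ × ℤ) : sd u v = sd v u := by
  unfold sd
  rw [abs_sub_comm, abs_sub_comm u.2]

lemma sd_tri (u v x : ℤ × ℤ) : sd u x ≤ sd u v + sd v x := by
  unfold sd
  have h1 := abs_sub_le u.1 v.1 x.1
  have h2 := abs_sub_le u.2 v.2 x.2
  omega

/-- the factor lost by removing `v` -/
noncomputable def hh (v : ℤ × ℤ) : ℝ :=
  w (b v) + w r + (∑ u ∈ S, w (sd v u) ^ 2) / w r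

lemma hh_nonneg : 0 ≤ hh b r S v := by
  unfold hh
  have h1 := w_pos (b v)
  have h2 := w_pos r
  have h3 : 0 ≤ ∑ u ∈ S, w (sd v u) ^ 2 := Finset.sum_nonneg fun _ _ => sq_nonneg _
  positivity

lemma prod_nonneg' : 0 ≤ ∏ u ∈ S, w (rad b r S u) :=
  Finset.prod_nonneg fun _ _ => (w_pos _).le

lemma step (hb : ∀ u v : ℤ × ℤ, b u ≤ b v + sd u v) (hS : S.Nonempty) :
    ∃ v ∈ S, ∏ u ∈ S, w (rad b r S u) ≤
      2 ^ S.card * (hh b r (S.erase v) v * ∏ u ∈ S.erase v, w (rad b r (S.erase v) u)) := by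
  classical
  obtain ⟨v, hv, hmin⟩ := S.exists_min_image (rad b r S) hS
  refine ⟨v, hv, ?_⟩
  rw [← Finset.mul_prod_erase S _ hv]
  set P : ℝ := ∏ u ∈ S.erase v, w (rad b r (S.erase v) u) with hP
  have hP0 : 0 ≤ P := prod_nonneg' b r _
  have hpow : (2 : ℝ) ^ (S.erase v).card ≤ 2 ^ S.card :=
    pow_le_pow_right₀ (by norm_num) (Finset.card_le_card (Finset.erase_subset _ _))
  have hh1 : w (b v) ≤ hh b r (S.erase v) v := by
    unfold hh
    have h2 := w_pos r
    have h3 : 0 ≤ (∑ u ∈ S.erase v, w (sd v u) ^ 2) / w r :=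
      div_nonneg (Finset.sum_nonneg fun _ _ => sq_nonneg _) h2.le
    linarith
  have hh2 : w r ≤ hh b r (S.erase v) v := by
    unfold hh
    have h2 := w_pos r
    have h1 := w_pos (b v)
    have h3 : 0 ≤ (∑ u ∈ S.erase v, w (sd v u) ^ 2) / w r :=
      div_nonneg (Finset.sum_nonneg fun _ _ => sq_nonneg _) h2.le
    linarith
  -- a general estimate
  have gen : ∀ (g : ℤ × ℤ → ℝ) (M : ℝ), (∀ u ∈ S.erase v, 0 ≤ g u) →
      (∀ u ∈ S.erase v, w (rad b r S u) ≤ 2 * w (rad b r (S.erase v) u) * g u) →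
      0 ≤ ∏ u ∈ S.erase v, g u →
      w (rad b r S v) * ∏ u ∈ S.erase v, g u ≤ M → M ≤ hh b r (S.erase v) v →
      w (rad b r S v) * ∏ u ∈ S.erase v, w (rad b r S u) ≤
        2 ^ S.card * (hh b r (S.erase v) v * P) := by
    intro g M hg0 hg hgn hM hMh
    have e1 : ∏ u ∈ S.erase v, w (rad b r S u) ≤
        ∏ u ∈ S.erase v, (2 * w (rad b r (S.erase v) u) * g u) :=
      Finset.prod_le_prod (fun _ _ => (w_pos _).le) hg
    have e2 : ∏ u ∈ S.erase v, (2 * w (rad b r (S.erase v) u) * g u) =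
        2 ^ (S.erase v).card * P * ∏ u ∈ S.erase v, g u := by
      rw [Finset.prod_mul_distrib, Finset.prod_mul_distrib, Finset.prod_const]
    rw [e2] at e1
    have hw := (w_pos (rad b r S v)).le
    have hhn := hh_nonneg b r (S.erase v) v
    calc w (rad b r S v) * ∏ u ∈ S.erase v, w (rad b r S u)
        ≤ w (rad b r S v) * (2 ^ (S.erase v).card * P * ∏ u ∈ S.erase v, g u) :=
          mul_le_mul_of_nonneg_left e1 hw
      _ = 2 ^ (S.erase v).card * ((w (rad b r S v) * ∏ u ∈ S.erase v, g u) * P) := by ring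
      _ ≤ 2 ^ (S.erase v).card * (hh b r (S.erase v) v * P) := by
          apply mul_le_mul_of_nonneg_left _ (by positivity)
          exact mul_le_mul_of_nonneg_right (hM.trans hMh) hP0
      _ ≤ 2 ^ S.card * (hh b r (S.erase v) v * P) :=
          mul_le_mul_of_nonneg_right hpow (mul_nonneg hhn hP0)
  -- the comparison of radii
  have comp : ∀ u ∈ S.erase v, rad b r (S.erase v) u ≤ rad b r S u ∨
      rad b r S u = sd u v := by
    intro u hu
    rcases rad_cases b r S u with h | h | ⟨u', hu', hne, h⟩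
    · left; rw [h]; exact rad_le_b b r _ u
    · left; rw [h]; exact rad_le_r b r _ u
    · by_cases e : u' = v
      · right; rw [h, e]
      · left; rw [h]
        exact rad_le_sd b r _ u (Finset.mem_erase.2 ⟨e, hu'⟩) hne
  have comp2 : ∀ u ∈ S.erase v, rad b r (S.erase v) u ≤ rad b r S u →
      w (rad b r S u) ≤ 2 * w (rad b r (S.erase v) u) := by
    intro u _ h
    have h1 := w_anti h
    have h2 := w_pos (rad b r (S.erase v) u)
    linarith
  rcases rad_cases b r S v with h | h | ⟨u0, hu0, hne, h⟩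
  · -- `rad = b v`
    apply gen (fun _ => 1) (w (b v))
    · intro _ _; norm_num
    · intro u hu
      rw [mul_one]
      rcases comp u hu with h1 | h1
      · exact comp2 u hu h1
      · apply w_two
        have h2 := rad_le_b b r (S.erase v) u
        have h3 := hb u v
        have h4 := hmin u (Finset.mem_of_mem_erase hu)
        omega
    · simp
    · simp [h]
    · exact hh1
  · -- `rad = r`
    apply gen (fun _ => 1) (w r)
    · intro _ _; norm_num
    · intro u hu
      rw [mul_one]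
      apply comp2 u hu
      have h2 := rad_le_r b r (S.erase v) u
      have h4 := hmin u (Finset.mem_of_mem_erase hu)
      omega
    · simp
    · simp [h]
    · exact hh2
  · -- `rad = sd v u0`
    have hu0' : u0 ∈ S.erase v := Finset.mem_erase.2 ⟨hne, hu0⟩
    have hwr := w_pos r
    have hwm := w_pos (rad b r S v)
    have hprod : ∏ u ∈ S.erase v, (if u = u0 then w (rad b r S v) / w r else 1) =
        w (rad b r S v) / w r := by
      rw [Finset.prod_ite_eq']
      rw [if_pos hu0']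
    apply gen (fun u => if u = u0 then w (rad b r S v) / w r else 1)
      (w (rad b r S v) ^ 2 / w r)
    · intro u _
      split_ifs
      · positivity
      · norm_num
    · intro u hu
      split_ifs with e
      · subst e
        have h1 : w (rad b r S u) ≤ w (rad b r S v) := w_anti (hmin u hu0)
        have h2 : w r ≤ w (rad b r (S.erase v) u) := w_anti (rad_le_r b r _ u)
        have h3 : w (rad b r S v) ≤ w (rad b r (S.erase v) u) * (w (rad b r S v) / w r) := by
          rw [mul_div_assoc', le_div_iff₀ hwr]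
          nlinarith
        have h4 : 0 ≤ w (rad b r (S.erase v) u) * (w (rad b r S v) / w r) := by
          have := w_pos (rad b r (S.erase v) u)
          positivity
        nlinarith
      · rw [mul_one]
        rcases comp u hu with h1 | h1
        · exact comp2 u hu h1
        · apply w_two
          have h2 : rad b r (S.erase v) u ≤ sd u u0 :=
            rad_le_sd b r _ u hu0' (fun e' => e e'.symm)
          have h3 := sd_tri u v u0
          have h4 := hmin u (Finset.mem_of_mem_erase hu)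
          omega
    · rw [hprod]; positivity
    · rw [hprod]
      apply le_of_eq; ring
    · unfold hh
      have h1 := w_pos (b v)
      have h3 : w (rad b r S v) ^ 2 ≤ ∑ u ∈ S.erase v, w (sd v u) ^ 2 := by
        rw [h]
        exact Finset.single_le_sum (f := fun u => w (sd v u) ^ 2)
          (fun _ _ => sq_nonneg _) hu0'
      have h4 : w (rad b r S v) ^ 2 / w r ≤ (∑ u ∈ S.erase v, w (sd v u) ^ 2) / w r :=
        div_le_div_of_nonneg_right h3 hwr.le
      linarith

/-- the symmetric one dimensional sum -/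
lemma sum_sym (n : ℕ) : ∑ t ∈ Icc (-(n : ℤ)) n, w |t| ≤ 1 + 8 / 3 * (n : ℝ) ^ (3/4 : ℝ) := by
  induction n with
  | zero =>
    simp [w]
  | succ n ih =>
    have hIcc : Icc (-((n + 1 : ℕ) : ℤ)) ((n + 1 : ℕ) : ℤ) =
        insert (-((n + 1 : ℕ) : ℤ)) (insert (((n + 1 : ℕ) : ℤ)) (Icc (-(n : ℤ)) n)) := by
      ext x
      simp only [Finset.mem_Icc, Finset.mem_insert]
      push_cast
      omega
    rw [hIcc, Finset.sum_insert, Finset.sum_insert]
    · have hw : w (((n + 1 : ℕ) : ℤ)) = ((n : ℝ) + 1) ^ (-(1/4) : ℝ) := by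
        unfold w
        rw [if_neg (by push_cast; omega)]
        push_cast
        rfl
      rw [abs_neg, Nat.abs_cast, hw]
      have hn : (0 : ℝ) < (n : ℝ) + 1 := by positivity
      have hB : (n : ℝ) ^ (3/4 : ℝ) ≤
          ((n : ℝ) + 1) ^ (3/4 : ℝ) - 3 / 4 * ((n : ℝ) + 1) ^ (-(1/4) : ℝ) := by
        have h1 := rpow_one_add_le_one_add_mul_self (s := -(1 / ((n : ℝ) + 1)))
          (p := 3/4) (by
            rw [neg_le_neg_iff, div_le_one hn]
            linarith [Nat.cast_nonneg (α := ℝ) n]) (by norm_num) (by norm_num)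
        have h2 : (1 + -(1 / ((n : ℝ) + 1))) = (n : ℝ) / ((n : ℝ) + 1) := by
          field_simp
          ring
        rw [h2, Real.div_rpow (Nat.cast_nonneg n) hn.le,
          div_le_iff₀ (Real.rpow_pos_of_pos hn _)] at h1
        have h3 : ((n : ℝ) + 1) ^ (3/4 : ℝ) = ((n : ℝ) + 1) * ((n : ℝ) + 1) ^ (-(1/4) : ℝ) := by
          have : ((n : ℝ) + 1) * ((n : ℝ) + 1) ^ (-(1/4) : ℝ) =
              ((n : ℝ) + 1) ^ (1 : ℝ) * ((n : ℝ) + 1) ^ (-(1/4) : ℝ) := by rw [Real.rpow_one]
          rw [this, ← Real.rpow_add hn]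
          norm_num
        calc (n : ℝ) ^ (3/4 : ℝ) ≤ (1 + 3/4 * -(1 / ((n : ℝ) + 1))) * ((n : ℝ) + 1) ^ (3/4 : ℝ) := h1
          _ = ((n : ℝ) + 1) ^ (3/4 : ℝ) -
              3 / 4 * (1 / ((n : ℝ) + 1)) * ((n : ℝ) + 1) ^ (3/4 : ℝ) := by ring
          _ = ((n : ℝ) + 1) ^ (3/4 : ℝ) - 3 / 4 * (1 / ((n : ℝ) + 1)) *
              (((n : ℝ) + 1) * ((n : ℝ) + 1) ^ (-(1/4) : ℝ)) := by rw [← h3]
          _ = ((n : ℝ) + 1) ^ (3/4 : ℝ) - 3 / 4 * ((n : ℝ) + 1) ^ (-(1/4) : ℝ) := by
              field_simp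
      push_cast
      linarith
    · simp only [Finset.mem_Icc]
      push_cast
      omega
    · simp only [Finset.mem_Icc, Finset.mem_insert]
      push_cast
      omega

lemma sum_line (c a : ℤ) (r : ℕ) (hr : 1 ≤ r) (ha : a ∈ Icc c (c + r)) :
    ∑ x ∈ Icc c (c + (r : ℤ)), w |x - a| ≤ 4 * (r : ℝ) ^ (3/4 : ℝ) := by
  rw [Finset.mem_Icc] at ha
  have h1 : ∑ x ∈ Icc c (c + (r : ℤ)), w |x - a| ≤ ∑ x ∈ Icc (a - r) (a + (r : ℤ)), w |x - a| := by
    apply Finset.sum_le_sum_of_subset_of_nonneg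
    · intro x hx
      rw [Finset.mem_Icc] at *
      omega
    · intro x _ _
      exact (w_pos _).le
  have h2 : ∑ x ∈ Icc (a - r) (a + (r : ℤ)), w |x - a| = ∑ t ∈ Icc (-(r : ℤ)) r, w |t| := by
    apply Finset.sum_bij' (fun x _ => x - a) (fun t _ => t + a)
    · intro x hx
      rw [Finset.mem_Icc] at *
      omega
    · intro x hx
      rw [Finset.mem_Icc] at *
      omega
    · intro x _; ring
    · intro x _; ring
    · intro x _; rfl
  have h3 := sum_sym r
  have h4 : (1 : ℝ) ≤ (r : ℝ) ^ (3/4 : ℝ) :=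
    Real.one_le_rpow (by exact_mod_cast hr) (by norm_num)
  linarith

lemma sum_plane (c d : ℤ) (r : ℕ) (hr : 1 ≤ r) (Q : Finset (ℤ × ℤ))
    (hQ : Q ⊆ Icc c (c + r) ×ˢ Icc d (d + r)) (u : ℤ × ℤ) (hu : u ∈ Q) :
    ∑ v ∈ Q, w (sd v u) ^ 2 ≤ 16 * (r : ℝ) ^ (3/2 : ℝ) := by
  have hu' := Finset.mem_product.1 (hQ hu)
  calc ∑ v ∈ Q, w (sd v u) ^ 2 ≤ ∑ v ∈ Q, w |v.1 - u.1| * w |v.2 - u.2| := by
        apply Finset.sum_le_sum
        intro v _
        rw [sq]
        apply mul_le_mul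
        · exact w_anti (le_max_left _ _)
        · exact w_anti (le_max_right _ _)
        · exact (w_pos _).le
        · exact (w_pos _).le
    _ ≤ ∑ v ∈ Icc c (c + (r : ℤ)) ×ˢ Icc d (d + (r : ℤ)), w |v.1 - u.1| * w |v.2 - u.2| := by
        apply Finset.sum_le_sum_of_subset_of_nonneg hQ
        intro v _ _
        exact mul_nonneg (w_pos _).le (w_pos _).le
    _ = (∑ x ∈ Icc c (c + (r : ℤ)), w |x - u.1|) * ∑ y ∈ Icc d (d + (r : ℤ)), w |y - u.2| := by
        rw [Finset.sum_mul_sum, Finset.sum_product]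
    _ ≤ (4 * (r : ℝ) ^ (3/4 : ℝ)) * (4 * (r : ℝ) ^ (3/4 : ℝ)) := by
        apply mul_le_mul (sum_line c u.1 r hr hu'.1) (sum_line d u.2 r hr hu'.2)
        · exact Finset.sum_nonneg fun _ _ => (w_pos _).le
        · positivity
    _ = 16 * (r : ℝ) ^ (3/2 : ℝ) := by
        have hr0 : (0 : ℝ) < r := by exact_mod_cast hr
        have : (r : ℝ) ^ (3/2 : ℝ) = (r : ℝ) ^ (3/4 : ℝ) * (r : ℝ) ^ (3/4 : ℝ) := by
          rw [← Real.rpow_add hr0]; norm_num
        rw [this]; ring

lemma w_cast (r : ℕ) (hr : 1 ≤ r) : w (r : ℤ) = (r : ℝ) ^ (-(1/4) : ℝ) := by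
  unfold w
  rw [if_neg (by omega)]
  push_cast
  rfl

lemma card_Q (c d : ℤ) (r : ℕ) (hr : 1 ≤ r) (Q : Finset (ℤ × ℤ))
    (hQ : Q ⊆ Icc c (c + r) ×ˢ Icc d (d + r)) : (Q.card : ℝ) ≤ 4 * (r : ℝ) ^ 2 := by
  have h1 := Finset.card_le_card hQ
  rw [Finset.card_product, Int.card_Icc, Int.card_Icc] at h1
  have e1 : (c + (r : ℤ) + 1 - c).toNat = r + 1 := by omega
  have e2 : (d + (r : ℤ) + 1 - d).toNat = r + 1 := by omega
  rw [e1, e2] at h1
  have h2 : (Q.card : ℝ) ≤ ((r : ℝ) + 1) * ((r : ℝ) + 1) := by exact_mod_cast h1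
  have h3 : (1 : ℝ) ≤ r := by exact_mod_cast hr
  nlinarith

lemma sum_hh (B : ℝ) (b : ℤ × ℤ → ℤ) (r : ℕ) (c d : ℤ) (Q : Finset (ℤ × ℤ)) (hr : 1 ≤ r)
    (hQ : Q ⊆ Icc c (c + r) ×ˢ Icc d (d + r))
    (hB : ∑ v ∈ Q, w (b v) ≤ B * (r : ℝ) ^ (7/4 : ℝ)) (S : Finset (ℤ × ℤ)) (hS : S ⊆ Q) :
    ∑ v ∈ Q, hh b r S v ≤ (B + 4 + 16 * S.card) * (r : ℝ) ^ (7/4 : ℝ) := by
  have hr0 : (0 : ℝ) < r := by exact_mod_cast hr
  have hwr := w_pos (r : ℤ)
  unfold hh
  rw [Finset.sum_add_distrib, Finset.sum_add_distrib, Finset.sum_const, nsmul_eq_mul,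
    ← Finset.sum_div, Finset.sum_comm]
  have h1 : (Q.card : ℝ) * w (r : ℤ) ≤ 4 * (r : ℝ) ^ (7/4 : ℝ) := by
    have := card_Q c d r hr Q hQ
    have e : (r : ℝ) ^ (7/4 : ℝ) = (r : ℝ) ^ 2 * w (r : ℤ) := by
      rw [w_cast r hr, ← Real.rpow_natCast, ← Real.rpow_add hr0]
      norm_num
    rw [e]
    nlinarith
  have h2 : (∑ u ∈ S, ∑ v ∈ Q, w (sd v u) ^ 2) / w (r : ℤ) ≤
      16 * S.card * (r : ℝ) ^ (7/4 : ℝ) := by
    rw [div_le_iff₀ hwr]
    calc ∑ u ∈ S, ∑ v ∈ Q, w (sd v u) ^ 2 ≤ ∑ u ∈ S, 16 * (r : ℝ) ^ (3/2 : ℝ) :=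
          Finset.sum_le_sum fun u hu => sum_plane c d r hr Q hQ u (hS hu)
      _ = 16 * S.card * (r : ℝ) ^ (7/4 : ℝ) * w (r : ℤ) := by
          rw [Finset.sum_const, nsmul_eq_mul, w_cast r hr]
          have e : (r : ℝ) ^ (3/2 : ℝ) = (r : ℝ) ^ (7/4 : ℝ) * (r : ℝ) ^ (-(1/4) : ℝ) := by
            rw [← Real.rpow_add hr0]; norm_num
          rw [e]; ring
  linarith

theorem t : H443U.TaskSum := by
  classical
  intro k B
  induction k with
  | zero =>
    refine ⟨1, one_pos, ?_⟩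
    intro b r c d Q hr hQ hb hB
    simp
  | succ k ih =>
    obtain ⟨C, hC, ih⟩ := ih
    refine ⟨2 ^ (k + 1) * (|B| + 4 + 16 * k) * C, by positivity, ?_⟩
    intro b r c d Q hr hQ hb hB
    have ih' := ih b r c d Q hr hQ hb hB
    have hr0 : (0 : ℝ) < r := by exact_mod_cast hr
    -- choose the removed point
    have hch : ∀ S : Finset (ℤ × ℤ), ∃ v : ℤ × ℤ, S.Nonempty → (v ∈ S ∧
        ∏ u ∈ S, w (rad b r S u) ≤ 2 ^ S.card *
          (hh b r (S.erase v) v * ∏ u ∈ S.erase v, w (rad b r (S.erase v) u))) := by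
      intro S
      by_cases hS : S.Nonempty
      · obtain ⟨v, hv, h⟩ := step b r S hb hS
        exact ⟨v, fun _ => ⟨hv, h⟩⟩
      · exact ⟨(0, 0), fun h => absurd h hS⟩
    choose V hV using hch
    have hne : ∀ S ∈ Q.powersetCard (k + 1), S.Nonempty := by
      intro S hS
      rw [Finset.mem_powersetCard] at hS
      rw [← Finset.card_pos]; omega
    let G : Finset (ℤ × ℤ) × (ℤ × ℤ) → ℝ := fun p =>
      2 ^ (k + 1) * (hh b r p.1 p.2 * ∏ u ∈ p.1, w (rad b r p.1 u))
    have hG0 : ∀ p, 0 ≤ G p := by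
      intro p
      have h1 := hh_nonneg b r p.1 p.2
      have h2 := prod_nonneg' b r p.1
      simp only [G]
      positivity
    have hinj : Set.InjOn (fun S : Finset (ℤ × ℤ) => (S.erase (V S), V S))
        (Q.powersetCard (k + 1) : Set (Finset (ℤ × ℤ))) := by
      intro S hS S' hS' e
      simp only [Prod.mk.injEq] at e
      have h1 := (hV S (hne S hS)).1
      have h2 := (hV S' (hne S' hS')).1
      rw [← Finset.insert_erase h1, ← Finset.insert_erase h2, e.1, e.2]
    calc ∑ S ∈ Q.powersetCard (k + 1), ∏ v ∈ S, w (rad b r S v)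
        ≤ ∑ S ∈ Q.powersetCard (k + 1), G (S.erase (V S), V S) := by
          apply Finset.sum_le_sum
          intro S hS
          have h := (hV S (hne S hS)).2
          rw [(Finset.mem_powersetCard.1 hS).2] at h
          exact h
      _ = ∑ p ∈ (Q.powersetCard (k + 1)).image (fun S => (S.erase (V S), V S)), G p := by
          rw [Finset.sum_image hinj]
      _ ≤ ∑ p ∈ Q.powersetCard k ×ˢ Q, G p := by
          apply Finset.sum_le_sum_of_subset_of_nonneg
          · intro p hp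
            obtain ⟨S, hS, rfl⟩ := Finset.mem_image.1 hp
            have h1 := (hV S (hne S hS)).1
            rw [Finset.mem_powersetCard] at hS
            rw [Finset.mem_product, Finset.mem_powersetCard]
            refine ⟨⟨(Finset.erase_subset _ _).trans hS.1, ?_⟩, hS.1 h1⟩
            simp only
            rw [Finset.card_erase_of_mem h1, hS.2]
            omega
          · intro p _ _
            exact hG0 p
      _ = ∑ S ∈ Q.powersetCard k, 2 ^ (k + 1) *
          ((∑ v ∈ Q, hh b r S v) * ∏ u ∈ S, w (rad b r S u)) := by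
          rw [Finset.sum_product]
          apply Finset.sum_congr rfl
          intro S _
          simp only [G]
          rw [← Finset.mul_sum, Finset.sum_mul]
      _ ≤ ∑ S ∈ Q.powersetCard k, 2 ^ (k + 1) *
          (((|B| + 4 + 16 * k) * (r : ℝ) ^ (7/4 : ℝ)) * ∏ u ∈ S, w (rad b r S u)) := by
          apply Finset.sum_le_sum
          intro S hS
          rw [Finset.mem_powersetCard] at hS
          apply mul_le_mul_of_nonneg_left _ (by positivity)
          apply mul_le_mul_of_nonneg_right _ (prod_nonneg' b r S)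
          have h1 := sum_hh B b r c d Q hr hQ hB S hS.1
          rw [hS.2] at h1
          apply h1.trans
          apply mul_le_mul_of_nonneg_right _ (by positivity)
          have := le_abs_self B
          linarith
      _ = 2 ^ (k + 1) * (|B| + 4 + 16 * k) * (r : ℝ) ^ (7/4 : ℝ) *
          ∑ S ∈ Q.powersetCard k, ∏ u ∈ S, w (rad b r S u) := by
          rw [Finset.mul_sum]
          apply Finset.sum_congr rfl
          intro S _
          ring
      _ ≤ 2 ^ (k + 1) * (|B| + 4 + 16 * k) * (r : ℝ) ^ (7/4 : ℝ) *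
          (C * (r : ℝ) ^ (7/4 * k : ℝ)) := by
          apply mul_le_mul_of_nonneg_left ih' (by positivity)
      _ = 2 ^ (k + 1) * (|B| + 4 + 16 * k) * C * (r : ℝ) ^ (7/4 * ((k + 1 : ℕ) : ℝ) : ℝ) := by
          have e : (r : ℝ) ^ (7/4 * ((k + 1 : ℕ) : ℝ) : ℝ) =
              (r : ℝ) ^ (7/4 : ℝ) * (r : ℝ) ^ (7/4 * k : ℝ) := by
            rw [← Real.rpow_add hr0]
            push_cast
            ring_nf
          rw [e]; ring

end H443U.Sum
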