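import Mathlib
import Pool.Agent.H443R3.UD.Stmts

set_option autoImplicit false

namespace H443U.Unif

open MeasureTheory Set Filter Topology ENNReal NNReal Metric

/-- grid cell -/
def cell (M j : ℕ) : Set unitInterval := {x | (j : ℝ) / M ≤ x ∧ (x : ℝ) ≤ (j + 1) / M}

theorem cell_dist {M j : ℕ} {x y : unitInterval} (hx : x ∈ cell M j) (hy : y ∈ cell M j) :
    |(x : ℝ) - y| ≤ 1 / M := by
  obtain ⟨h1, h2⟩ := hx
  obtain ⟨h3, h4⟩ := hy
  have : ((j : ℝ) + 1) / M = j / M + 1 / M := by ring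
  rw [abs_le]
  constructor <;> linarith

theorem cell_diam (M j : ℕ) : ediam (cell M j) ≤ ENNReal.ofReal (1 / M) := by
  apply ediam_le
  intro x hx y hy
  rw [edist_dist]
  apply ENNReal.ofReal_le_ofReal
  rw [Subtype.dist_eq, Real.dist_eq]
  exact cell_dist hx hy

theorem exists_cell {M : ℕ} (hM : 0 < M) (x : unitInterval) : ∃ j < M, x ∈ cell M j := by
  have hM' : (0 : ℝ) < M := by exact_mod_cast hM
  have hx0 := x.2.1
  have hx1 := x.2.2
  by_cases h : (x : ℝ) < 1
  · refine ⟨⌊(x : ℝ) * M⌋₊, ?_, ?_, ?_⟩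
    · rw [Nat.floor_lt (by positivity)]
      nlinarith
    · rw [div_le_iff₀ hM']
      exact Nat.floor_le (by positivity)
    · rw [le_div_iff₀ hM']
      exact (Nat.lt_floor_add_one _).le
  · have hx : (x : ℝ) = 1 := le_antisymm hx1 (not_lt.1 h)
    refine ⟨M - 1, by omega, ?_, ?_⟩
    · rw [hx, div_le_one hM']
      exact_mod_cast Nat.sub_le M 1
    · rw [hx, le_div_iff₀ hM']
      rw [Nat.cast_sub (by omega : 1 ≤ M)]
      push_cast
      linarith

/-- half-open grid cell -/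
def hcell (M j : ℕ) : Set unitInterval := {x | (j : ℝ) / M ≤ x ∧ (x : ℝ) < (j + 1) / M}

theorem hcell_sub (M j : ℕ) : hcell M j ⊆ cell M j := fun _ hx => ⟨hx.1, hx.2.le⟩

theorem hcell_meas (M j : ℕ) : MeasurableSet (hcell M j) :=
  (measurableSet_Ici.preimage measurable_subtype_coe).inter
    (measurableSet_Iio.preimage measurable_subtype_coe)

theorem hcell_disj {M : ℕ} (hM : 0 < M) : Pairwise (Function.onFun Disjoint (hcell M)) := by
  have hM' : (0 : ℝ) < M := by exact_mod_cast hM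
  have key : ∀ i j : ℕ, i < j → Disjoint (hcell M i) (hcell M j) := by
    intro i j hij
    rw [Set.disjoint_left]
    rintro x ⟨_, h1⟩ ⟨h2, _⟩
    have h3 := lt_of_le_of_lt h2 h1
    rw [div_lt_div_iff_of_pos_right hM'] at h3
    have : (i : ℝ) + 1 ≤ j := by exact_mod_cast hij
    linarith
  intro i j hij
  rcases lt_or_gt_of_ne hij with h | h
  · exact key i j h
  · exact (key j i h).symm

theorem hcell_vol {M j : ℕ} (hM : 0 < M) (hj : j < M) :
    volume (hcell M j) = ENNReal.ofReal (1 / M) := by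
  have hM' : (0 : ℝ) < M := by exact_mod_cast hM
  have h1 : (j : ℝ) + 1 ≤ M := by exact_mod_cast hj
  let a : unitInterval := ⟨j / M, by positivity, by rw [div_le_one hM']; linarith⟩
  let b : unitInterval := ⟨(j + 1) / M, by positivity, by rw [div_le_one hM']; linarith⟩
  have h2 : hcell M j = Ico a b := by
    ext x
    rfl
  rw [h2, unitInterval.volume_Ico]
  congr 1
  show ((j : ℝ) + 1) / M - j / M = 1 / M
  ring

/-- counting active cells -/
theorem count {f : unitInterval → ℂ} {β L a Λ : ℝ} {z : ℂ} {d : ℝ} {M : ℕ} (hM : 0 < M)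
    (hf : ∀ s t : unitInterval, dist (f s) (f t) ≤ L * |(s : ℝ) - t| ^ β) (hβ : 0 < β)
    (hL : 0 ≤ L)
    (hMd : L * (1 / M : ℝ) ^ β ≤ d)
    (hocc : volume {s : unitInterval | dist (f s) z < 2 * d} ≤ ENNReal.ofReal (Λ * (2 * d) ^ a))
    (A : Finset ℕ) (hA : ∀ j ∈ A, j < M ∧ ∃ y ∈ cell M j, dist (f y) z < d) :
    (A.card : ℝ≥0∞) * ENNReal.ofReal (1 / M) ≤ ENNReal.ofReal (Λ * (2 * d) ^ a) := by
  have hM' : (0 : ℝ) < M := by exact_mod_cast hM
  have h1 : volume (⋃ j ∈ A, hcell M j) = ∑ j ∈ A, volume (hcell M j) :=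
    measure_biUnion_finset (fun i _ j _ hij => hcell_disj hM hij) (fun j _ => hcell_meas M j)
  have h2 : ∑ j ∈ A, volume (hcell M j) = (A.card : ℝ≥0∞) * ENNReal.ofReal (1 / M) := by
    rw [Finset.sum_congr rfl (fun j hj => hcell_vol hM (hA j hj).1), Finset.sum_const,
      nsmul_eq_mul]
  rw [← h2, ← h1]
  refine le_trans (measure_mono ?_) hocc
  intro x hx
  simp only [mem_iUnion] at hx
  obtain ⟨j, hj, hx⟩ := hx
  obtain ⟨-, y, hy, hyz⟩ := hA j hj
  show dist (f x) z < 2 * d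
  have h3 : dist (f x) (f y) ≤ d := by
    refine (hf x y).trans (le_trans ?_ hMd)
    apply mul_le_mul_of_nonneg_left _ hL
    exact Real.rpow_le_rpow (abs_nonneg _) (cell_dist (hcell_sub M j hx) hy) hβ.le
  linarith [dist_triangle (f x) (f y) z]


/-- the number of grid cells for a ball of radius `d` -/
noncomputable def num (L β d : ℝ) : ℕ := ⌈(L / d) ^ (1 / β)⌉₊

section One

variable {β L d : ℝ}

theorem base_ge (hd : 0 < d) (hdL : d ≤ L) (hβ : 0 < β) : 1 ≤ (L / d) ^ (1 / β) := by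
  apply Real.one_le_rpow
  · rwa [one_le_div hd]
  · positivity

theorem num_ge (L β d : ℝ) : (L / d) ^ (1 / β) ≤ num L β d := Nat.le_ceil _

theorem num_pos (hd : 0 < d) (hdL : d ≤ L) (hβ : 0 < β) : 0 < num L β d := by
  have h1 := base_ge hd hdL hβ
  have h2 := num_ge L β d
  have : (0 : ℝ) < num L β d := by linarith
  exact_mod_cast this

theorem num_le (hd : 0 < d) (hdL : d ≤ L) (hβ : 0 < β) :
    (num L β d : ℝ) ≤ 2 * (L / d) ^ (1 / β) := by
  have h1 := base_ge hd hdL hβ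
  have h2 : (num L β d : ℝ) < (L / d) ^ (1 / β) + 1 := Nat.ceil_lt_add_one (by positivity)
  linarith

theorem num_mod (hd : 0 < d) (hdL : d ≤ L) (hβ : 0 < β) :
    L * (1 / (num L β d : ℝ)) ^ β ≤ d := by
  have hL : 0 < L := hd.trans_le hdL
  have h0 : (0 : ℝ) < num L β d := by exact_mod_cast num_pos hd hdL hβ
  have h1 : L / d ≤ (num L β d : ℝ) ^ β := by
    calc L / d = ((L / d) ^ (1 / β)) ^ β := by
          rw [← Real.rpow_mul (by positivity), one_div_mul_cancel hβ.ne', Real.rpow_one]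
      _ ≤ _ := Real.rpow_le_rpow (by positivity) (num_ge L β d) hβ.le
  rw [Real.div_rpow zero_le_one h0.le, Real.one_rpow, mul_one_div,
    div_le_iff₀ (Real.rpow_pos_of_pos h0 β)]
  rw [div_le_iff₀ hd] at h1
  linarith

theorem one_n {f : unitInterval → ℂ} {a s Λ : ℝ} {z : ℂ}
    (hf : ∀ s t : unitInterval, dist (f s) (f t) ≤ L * |(s : ℝ) - t| ^ β) (hβ : 0 < β)
    (hΛ : 0 ≤ Λ) (hd : 0 < d) (hdL : d ≤ L) (hsa : s < a)
    (hocc : volume {s : unitInterval | dist (f s) z < 2 * d} ≤ ENNReal.ofReal (Λ * (2 * d) ^ a))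
    (A : Finset ℕ) (hA : ∀ j ∈ A, j < num L β d ∧ ∃ y ∈ cell (num L β d) j, dist (f y) z < d) :
    (A.card : ℝ≥0∞) * ENNReal.ofReal (1 / num L β d) ^ (1 - β * (a - s)) ≤
      ENNReal.ofReal (Λ * 2 ^ a * 2 ^ (β * (a - s)) * L ^ (a - s)) * ENNReal.ofReal (d ^ s) := by
  have hL : 0 < L := hd.trans_le hdL
  have hM := num_pos hd hdL hβ
  have h0 : (0 : ℝ) < num L β d := by exact_mod_cast hM
  have hp : 0 ≤ β * (a - s) := mul_nonneg hβ.le (by linarith)
  have h1 := count hM hf hβ hL.le (num_mod hd hdL hβ) hocc A hA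
  have h2 : ENNReal.ofReal (1 / num L β d) ^ (1 - β * (a - s)) =
      ENNReal.ofReal (1 / num L β d) * ENNReal.ofReal ((num L β d : ℝ) ^ (β * (a - s))) := by
    rw [ENNReal.ofReal_rpow_of_pos (by positivity), ← ENNReal.ofReal_mul (by positivity)]
    congr 1
    rw [Real.rpow_sub (by positivity), Real.rpow_one, Real.div_rpow zero_le_one h0.le,
      Real.one_rpow]
    field_simp
  have h3 : (num L β d : ℝ) ^ (β * (a - s)) ≤ 2 ^ (β * (a - s)) * (L / d) ^ (a - s) := by
    calc (num L β d : ℝ) ^ (β * (a - s)) ≤ (2 * (L / d) ^ (1 / β)) ^ (β * (a - s)) :=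
          Real.rpow_le_rpow h0.le (num_le hd hdL hβ) hp
      _ = _ := by
        rw [Real.mul_rpow (by norm_num) (by positivity), ← Real.rpow_mul (by positivity)]
        congr 2
        field_simp
  calc (A.card : ℝ≥0∞) * ENNReal.ofReal (1 / num L β d) ^ (1 - β * (a - s))
      = ((A.card : ℝ≥0∞) * ENNReal.ofReal (1 / num L β d)) *
        ENNReal.ofReal ((num L β d : ℝ) ^ (β * (a - s))) := by rw [h2, mul_assoc]
    _ ≤ ENNReal.ofReal (Λ * (2 * d) ^ a) *
        ENNReal.ofReal (2 ^ (β * (a - s)) * (L / d) ^ (a - s)) :=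
        mul_le_mul' h1 (ENNReal.ofReal_le_ofReal h3)
    _ = _ := by
      rw [← ENNReal.ofReal_mul (by positivity), ← ENNReal.ofReal_mul (by positivity)]
      congr 1
      rw [Real.mul_rpow (by norm_num) hd.le, Real.div_rpow hL.le hd.le]
      have h4 : d ^ a = d ^ s * d ^ (a - s) := by
        rw [← Real.rpow_add hd]; congr 1; ring
      rw [h4]
      have h5 : d ^ (a - s) ≠ 0 := (Real.rpow_pos_of_pos hd _).ne'
      field_simp

end One

theorem cover {Y : Set ℂ} {s : ℝ} (h0 : μH[s] Y = 0) {r : ℝ≥0∞} (hr : 0 < r) :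
    ∃ t : ℕ → Set ℂ, Y ⊆ ⋃ n, t n ∧ (∀ n, ediam (t n) ≤ r) ∧
      ∑' n, ⨆ _ : (t n).Nonempty, ediam (t n) ^ s < 1 := by
  rw [Measure.hausdorffMeasure_apply] at h0
  have h1 := (ENNReal.iSup_eq_zero.1 h0) r
  have h2 := (ENNReal.iSup_eq_zero.1 h1) hr
  have h3 := h2.trans_lt zero_lt_one
  rw [iInf_lt_iff] at h3
  obtain ⟨t, h3⟩ := h3
  rw [iInf_lt_iff] at h3
  obtain ⟨h4, h3⟩ := h3
  rw [iInf_lt_iff] at h3
  obtain ⟨h5, h3⟩ := h3
  exact ⟨t, h4, h5, h3⟩

theorem half_pow (n : ℕ) : (0 : ℝ) < 1 / 2 / 2 ^ n := by positivity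

theorem half_pow_le (n : ℕ) : (1 : ℝ) / 2 / 2 ^ n ≤ 1 := by
  rw [div_le_one (by positivity)]
  have : (1 : ℝ) ≤ 2 ^ n := one_le_pow₀ (by norm_num)
  linarith

theorem sum_half : ∑' n : ℕ, ENNReal.ofReal (1 / 2 / 2 ^ n) = 1 := by
  rw [← ENNReal.ofReal_tsum_of_nonneg (fun n => (half_pow n).le) (hasSum_geometric_two' 1).summable,
    (hasSum_geometric_two' 1).tsum_eq, ENNReal.ofReal_one]

theorem add_rpow_le' {x y s : ℝ} (hx : 0 ≤ x) (hy : 0 ≤ y) (hs : 0 < s) :
    (x + y) ^ s ≤ 2 ^ s * (x ^ s + y ^ s) := by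
  rcases le_total x y with h | h
  · calc (x + y) ^ s ≤ (2 * y) ^ s := Real.rpow_le_rpow (by positivity) (by linarith) hs.le
      _ = 2 ^ s * y ^ s := Real.mul_rpow (by norm_num) hy
      _ ≤ _ := by
        apply mul_le_mul_of_nonneg_left _ (by positivity)
        have := Real.rpow_nonneg hx s
        linarith
  · calc (x + y) ^ s ≤ (2 * x) ^ s := Real.rpow_le_rpow (by positivity) (by linarith) hs.le
      _ = 2 ^ s * x ^ s := Real.mul_rpow (by norm_num) hx
      _ ≤ _ := by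
        apply mul_le_mul_of_nonneg_left _ (by positivity)
        have := Real.rpow_nonneg hy s
        linarith

theorem main {f : unitInterval → ℂ} {β a s L Λ : ℝ} (hβ : 0 < β) (hβ1 : β < 1) (hs : 0 < s)
    (hsa : s < a) (hp : β * (a - s) < 1) (hL : 2 ≤ L) (hΛ : 0 ≤ Λ)
    (hf : ∀ s t : unitInterval, dist (f s) (f t) ≤ L * |(s : ℝ) - t| ^ β)
    (hocc : ∀ (z : ℂ) (r : ℝ), 0 < r →
      volume {s : unitInterval | dist (f s) z < r} ≤ ENNReal.ofReal (Λ * r ^ a))
    (E : Set unitInterval) (h0 : μH[s] (f '' E) = 0) : μH[1 - β * (a - s)] E ≠ ∞ := by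
  classical
  have hs' : 0 < 1 - β * (a - s) := by linarith
  have hk : ∀ k : ℕ, (0 : ℝ) < 1 / ((k : ℝ) + 1) := fun k => by positivity
  have hk1 : ∀ k : ℕ, 1 / ((k : ℝ) + 1) ≤ 1 := fun k => by
    rw [div_le_one (by positivity)]
    have : (0 : ℝ) ≤ k := Nat.cast_nonneg k
    linarith
  have hc : ∀ k : ℕ, ∃ t : ℕ → Set ℂ, f '' E ⊆ ⋃ n, t n ∧
      (∀ n, ediam (t n) ≤ ENNReal.ofReal (1 / ((k : ℝ) + 1))) ∧
      ∑' n, ⨆ _ : (t n).Nonempty, ediam (t n) ^ s < 1 :=
    fun k => cover h0 (ENNReal.ofReal_pos.2 (hk k))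
  choose t ht1 ht2 ht3 using hc
  set ε : ℕ → ℝ := fun n => (1 / 2 / 2 ^ n) ^ (1 / s) with hε
  have hε0 : ∀ n, 0 < ε n := fun n => Real.rpow_pos_of_pos (half_pow n) _
  have hε1 : ∀ n, ε n ≤ 1 := fun n =>
    Real.rpow_le_one (half_pow n).le (half_pow_le n) (by positivity)
  have hεs : ∀ n, ε n ^ s = 1 / 2 / 2 ^ n := fun n => by
    rw [hε]
    simp only
    rw [← Real.rpow_mul (half_pow n).le, one_div_mul_cancel hs.ne', Real.rpow_one]
  have htop : ∀ k n, ediam (t k n) ≠ ∞ := fun k n => ((ht2 k n).trans_lt ENNReal.ofReal_lt_top).ne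
  set d : ℕ → ℕ → ℝ := fun k n => (ediam (t k n)).toReal + ε n * (1 / ((k : ℝ) + 1)) with hd
  have hd0 : ∀ k n, 0 < d k n := fun k n => by
    have h1 : 0 ≤ (ediam (t k n)).toReal := ENNReal.toReal_nonneg
    have h2 : 0 < ε n * (1 / ((k : ℝ) + 1)) := mul_pos (hε0 n) (hk k)
    simp only [hd]
    linarith
  have hd2 : ∀ k n, d k n ≤ 2 * (1 / ((k : ℝ) + 1)) := fun k n => by
    have h1 : (ediam (t k n)).toReal ≤ 1 / ((k : ℝ) + 1) :=
      ENNReal.toReal_le_of_le_ofReal (hk k).le (ht2 k n)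
    have h2 : ε n * (1 / ((k : ℝ) + 1)) ≤ 1 * (1 / ((k : ℝ) + 1)) :=
      mul_le_mul_of_nonneg_right (hε1 n) (hk k).le
    simp only [hd]
    linarith
  have hdL : ∀ k n, d k n ≤ L := fun k n => by
    have h1 := hd2 k n
    have h2 := hk1 k
    linarith
  set z : ℕ → ℕ → ℂ := fun k n => if h : (t k n).Nonempty then h.some else 0 with hz
  have hzmem : ∀ k n, (t k n).Nonempty → z k n ∈ t k n := fun k n h => by
    simp only [hz, dif_pos h]
    exact h.some_mem
  set act : ℕ → ℕ → ℕ → Prop := fun k n j => j < num L β (d k n) ∧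
    ∃ y ∈ cell (num L β (d k n)) j, dist (f y) (z k n) < d k n with hact
  set U : ∀ _ : ℕ, ℕ × ℕ → Set unitInterval := fun k p =>
    {x | act k p.1 p.2 ∧ x ∈ cell (num L β (d k p.1)) p.2} with hU
  have hUd : ∀ k p, ediam (U k p) ≤ ENNReal.ofReal (1 / num L β (d k p.1)) := fun k p =>
    (ediam_mono (fun x hx => hx.2)).trans (cell_diam _ _)
  have hUk : ∀ k p, ediam (U k p) ≤ ENNReal.ofReal (1 / ((k : ℝ) + 1)) := fun k p => by
    refine (hUd k p).trans (ENNReal.ofReal_le_ofReal ?_)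
    apply one_div_le_one_div_of_le (by positivity)
    refine le_trans ?_ (num_ge L β (d k p.1))
    have h1 : (k : ℝ) + 1 ≤ L / d k p.1 := by
      rw [le_div_iff₀ (hd0 k p.1)]
      calc ((k : ℝ) + 1) * d k p.1 ≤ ((k : ℝ) + 1) * (2 * (1 / ((k : ℝ) + 1))) :=
            mul_le_mul_of_nonneg_left (hd2 k p.1) (by positivity)
        _ = 2 := by field_simp
        _ ≤ L := hL
    refine h1.trans ?_
    calc L / d k p.1 = (L / d k p.1) ^ (1 : ℝ) := (Real.rpow_one _).symm
      _ ≤ _ := Real.rpow_le_rpow_of_exponent_le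
        (by rw [one_le_div (hd0 k p.1)]; exact hdL k p.1)
        (by rw [le_div_iff₀ hβ]; linarith)
  have hr : Tendsto (fun k : ℕ => ENNReal.ofReal (1 / ((k : ℝ) + 1))) atTop (𝓝 0) := by
    have := ENNReal.tendsto_ofReal (tendsto_one_div_add_atTop_nhds_zero_nat (𝕜 := ℝ))
    rwa [ENNReal.ofReal_zero] at this
  have hcov : ∀ k, E ⊆ ⋃ p, U k p := by
    intro k x hx
    have h1 := ht1 k (mem_image_of_mem f hx)
    obtain ⟨n, hn⟩ := mem_iUnion.1 h1
    obtain ⟨j, hj, hxj⟩ := exists_cell (num_pos (hd0 k n) (hdL k n) hβ) x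
    have h2 : dist (f x) (z k n) < d k n := by
      have h3 : edist (f x) (z k n) ≤ ediam (t k n) :=
        edist_le_ediam_of_mem hn (hzmem k n ⟨_, hn⟩)
      have h4 : dist (f x) (z k n) ≤ (ediam (t k n)).toReal := by
        rw [dist_edist]
        exact ENNReal.toReal_mono (htop k n) h3
      have h5 : 0 < ε n * (1 / ((k : ℝ) + 1)) := mul_pos (hε0 n) (hk k)
      simp only [hd]
      linarith
    exact mem_iUnion.2 ⟨(n, j), ⟨hj, x, hxj, h2⟩, hxj⟩
  set C : ℝ := Λ * 2 ^ a * 2 ^ (β * (a - s)) * L ^ (a - s) with hC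
  have hsum : ∀ k, ∑' p, ediam (U k p) ^ (1 - β * (a - s)) ≤
      ENNReal.ofReal C * (ENNReal.ofReal (2 ^ s) * (1 + 1)) := by
    intro k
    have h1 : ∀ n, ∑' j, ediam (U k (n, j)) ^ (1 - β * (a - s)) ≤
        ENNReal.ofReal C * ENNReal.ofReal (d k n ^ s) := by
      intro n
      set A : Finset ℕ := (Finset.range (num L β (d k n))).filter (act k n) with hA
      have h2 : ∑' j, ediam (U k (n, j)) ^ (1 - β * (a - s)) =
          ∑ j ∈ A, ediam (U k (n, j)) ^ (1 - β * (a - s)) := by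
        apply tsum_eq_sum
        intro j hj
        have h3 : U k (n, j) = ∅ := by
          ext x
          simp only [mem_empty_iff_false, iff_false]
          rintro ⟨h4, -⟩
          exact absurd (Finset.mem_filter.2 ⟨Finset.mem_range.2 h4.1, h4⟩) hj
        rw [h3, ediam_empty, ENNReal.zero_rpow_of_pos hs']
      rw [h2]
      have h4 : ∑ j ∈ A, ediam (U k (n, j)) ^ (1 - β * (a - s)) ≤
          (A.card : ℝ≥0∞) * ENNReal.ofReal (1 / num L β (d k n)) ^ (1 - β * (a - s)) := by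
        rw [← nsmul_eq_mul]
        apply Finset.sum_le_card_nsmul
        intro j _
        exact ENNReal.rpow_le_rpow (hUd k (n, j)) hs'.le
      have h9 : 0 < 2 * d k n := mul_pos two_pos (hd0 k n)
      exact h4.trans (one_n (z := z k n) hf hβ hΛ (hd0 k n) (hdL k n) hsa (hocc (z k n) _ h9) A
        (fun j hj => (Finset.mem_filter.1 hj).2))
    have h5 : ∀ n, ENNReal.ofReal (d k n ^ s) ≤ ENNReal.ofReal (2 ^ s) *
        ((⨆ _ : (t k n).Nonempty, ediam (t k n) ^ s) + ENNReal.ofReal (1 / 2 / 2 ^ n)) := by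
      intro n
      have h6 : d k n ^ s ≤ 2 ^ s * ((ediam (t k n)).toReal ^ s + 1 / 2 / 2 ^ n) := by
        refine (add_rpow_le' ENNReal.toReal_nonneg (mul_pos (hε0 n) (hk k)).le hs).trans ?_
        apply mul_le_mul_of_nonneg_left _ (by positivity)
        rw [← hεs n]
        have h7 : (ε n * (1 / ((k : ℝ) + 1))) ^ s ≤ ε n ^ s :=
          Real.rpow_le_rpow (mul_pos (hε0 n) (hk k)).le
            (mul_le_of_le_one_right (hε0 n).le (hk1 k)) hs.le
        linarith
      refine (ENNReal.ofReal_le_ofReal h6).trans ?_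
      rw [ENNReal.ofReal_mul (by positivity), ENNReal.ofReal_add (by positivity) (half_pow n).le]
      gcongr
      rw [← ENNReal.ofReal_rpow_of_nonneg ENNReal.toReal_nonneg hs.le,
        ENNReal.ofReal_toReal (htop k n)]
      by_cases h8 : (t k n).Nonempty
      · exact le_iSup (fun _ : (t k n).Nonempty => ediam (t k n) ^ s) h8
      · rw [not_nonempty_iff_eq_empty.1 h8, ediam_empty, ENNReal.zero_rpow_of_pos hs]
        exact zero_le
    calc ∑' p, ediam (U k p) ^ (1 - β * (a - s))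
        = ∑' n, ∑' j, ediam (U k (n, j)) ^ (1 - β * (a - s)) :=
          ENNReal.tsum_prod' (f := fun p : ℕ × ℕ => ediam (U k p) ^ (1 - β * (a - s)))
      _ ≤ ∑' n, ENNReal.ofReal C * (ENNReal.ofReal (2 ^ s) *
        ((⨆ _ : (t k n).Nonempty, ediam (t k n) ^ s) + ENNReal.ofReal (1 / 2 / 2 ^ n))) :=
          ENNReal.tsum_le_tsum fun n => (h1 n).trans (mul_le_mul_right (h5 n) _)
      _ = ENNReal.ofReal C * (ENNReal.ofReal (2 ^ s) *
        ((∑' n, ⨆ _ : (t k n).Nonempty, ediam (t k n) ^ s) +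
          ∑' n : ℕ, ENNReal.ofReal (1 / 2 / 2 ^ n))) := by
          rw [ENNReal.tsum_mul_left, ENNReal.tsum_mul_left, ENNReal.tsum_add]
      _ ≤ _ := by
          rw [sum_half]
          gcongr
          exact (ht3 k).le
  have hfin : μH[1 - β * (a - s)] E ≤ ENNReal.ofReal C * (ENNReal.ofReal (2 ^ s) * (1 + 1)) := by
    refine (Measure.hausdorffMeasure_le_liminf_tsum (1 - β * (a - s)) E _ hr U
      (Eventually.of_forall fun k p => hUk k p) (Eventually.of_forall hcov)).trans ?_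
    refine (liminf_le_liminf (Eventually.of_forall hsum)).trans ?_
    rw [liminf_const]
  refine (hfin.trans_lt ?_).ne
  exact ENNReal.mul_lt_top ENNReal.ofReal_lt_top
    (ENNReal.mul_lt_top ENNReal.ofReal_lt_top (by norm_num))

theorem dimH_le_one (E : Set unitInterval) : dimH E ≤ 1 := by
  have h1 : dimH ((Subtype.val : unitInterval → ℝ) '' E) = dimH E :=
    isometry_subtype_coe.dimH_image E
  rw [← h1]
  exact (dimH_mono (subset_univ _)).trans Real.dimH_univ.le

theorem t : H443U.TaskUnif := by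
  intro f h1 h2 E
  have hE1 := dimH_le_one E
  have hEtop : dimH E ≠ ∞ := (hE1.trans_lt ENNReal.one_lt_top).ne
  have h74 : (7 / 4 : ℝ≥0∞) = ENNReal.ofReal (7 / 4) := by
    rw [ENNReal.ofReal_div_of_pos (by norm_num)]
    norm_num
  set D := (dimH E).toReal with hD
  have hDE : dimH E = ENNReal.ofReal D := (ENNReal.ofReal_toReal hEtop).symm
  have hD0 : 0 ≤ D := ENNReal.toReal_nonneg
  apply le_antisymm
  · have key : ∀ β : ℝ, 0 < β → β < 4 / 7 → dimH (f '' E) ≤ ENNReal.ofReal (D / β) := by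
      intro β hβ hβ1
      obtain ⟨Λ, hΛ⟩ := h1 β hβ hβ1
      have hh : HolderWith (Real.toNNReal Λ) ⟨β, hβ.le⟩ f := by
        intro x y
        have h3 : dist (f x) (f y) ≤ max Λ 0 * |(x : ℝ) - y| ^ β :=
          (hΛ x y).trans (mul_le_mul_of_nonneg_right (le_max_left _ _) (by positivity))
        rw [edist_dist, edist_dist, Subtype.dist_eq, Real.dist_eq]
        refine (ENNReal.ofReal_le_ofReal h3).trans ?_
        rw [ENNReal.ofReal_mul (le_max_right _ _)]
        apply mul_le_mul'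
        · rw [ENNReal.ofReal, Real.toNNReal_of_nonneg (le_max_right _ _)]
          apply le_of_eq
          congr 1
        · rw [← ENNReal.ofReal_rpow_of_nonneg (abs_nonneg _) hβ.le]
          exact le_rfl
      have h4 := hh.dimH_image_le (by exact hβ) E
      refine h4.trans (le_of_eq ?_)
      rw [hDE, ENNReal.ofReal_div_of_pos hβ]
      congr 1
      exact (ENNReal.ofReal_eq_coe_nnreal hβ.le).symm
    have hlim : Tendsto (fun β : ℝ => ENNReal.ofReal (D / β)) (𝓝[<] (4 / 7 : ℝ))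
        (𝓝 (ENNReal.ofReal (D / (4 / 7)))) := by
      apply ENNReal.tendsto_ofReal
      have : Tendsto (fun β : ℝ => D / β) (𝓝 (4 / 7 : ℝ)) (𝓝 (D / (4 / 7))) :=
        tendsto_const_nhds.div tendsto_id (by norm_num)
      exact this.mono_left nhdsWithin_le_nhds
    have hev : ∀ᶠ β : ℝ in 𝓝[<] (4 / 7 : ℝ), dimH (f '' E) ≤ ENNReal.ofReal (D / β) := by
      filter_upwards [Ioo_mem_nhdsLT (show (0 : ℝ) < 4 / 7 by norm_num)] with β hβ
      exact key β hβ.1 hβ.2
    have h5 := ge_of_tendsto hlim hev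
    rw [hDE, h74, ← ENNReal.ofReal_mul (by norm_num)]
    refine h5.trans (le_of_eq ?_)
    congr 1
    ring
  · by_cases hbig : (7 / 4 : ℝ≥0∞) ≤ dimH (f '' E)
    · calc (7 / 4 : ℝ≥0∞) * dimH E ≤ 7 / 4 * 1 := mul_le_mul_right hE1 _
        _ ≤ _ := by rwa [mul_one]
    · have hlt : dimH (f '' E) < 7 / 4 := not_le.1 hbig
      have hFtop : dimH (f '' E) ≠ ∞ := (hlt.trans_le le_top).ne
      set F := (dimH (f '' E)).toReal with hF
      have hFE : dimH (f '' E) = ENNReal.ofReal F := (ENNReal.ofReal_toReal hFtop).symm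
      have hF0 : 0 ≤ F := ENNReal.toReal_nonneg
      have hF1 : F < 7 / 4 := by
        rw [hFE, h74] at hlt
        exact (ENNReal.ofReal_lt_ofReal_iff (by norm_num)).1 hlt
      have key : ∀ η : ℝ, 0 < η → η < 4 / 7 → F + η < 7 / 4 - η →
          dimH E ≤ ENNReal.ofReal (1 - (4 / 7 - η) * (7 / 4 - η - (F + η))) := by
        intro η h0 h3 h4
        have hβ0 : 0 < 4 / 7 - η := by linarith
        obtain ⟨L, hL⟩ := h1 (4 / 7 - η) hβ0 (by linarith)
        obtain ⟨Λ, hΛ⟩ := h2 (7 / 4 - η) (by linarith) (by linarith)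
        have hp : (4 / 7 - η) * (7 / 4 - η - (F + η)) < 1 := by
          nlinarith
        have hs : 0 < F + η := by linarith
        have h5 : μH[F + η] (f '' E) = 0 := by
          have h6 : dimH (f '' E) < ((Real.toNNReal (F + η) : ℝ≥0) : ℝ≥0∞) := by
            rw [hFE]
            exact (ENNReal.ofReal_lt_ofReal_iff hs).2 (by linarith)
          have h6' := hausdorffMeasure_of_dimH_lt h6
          rwa [Real.coe_toNNReal _ hs.le] at h6'
        have h7 := main (L := max L 2) (Λ := max Λ 0) hβ0 (by linarith) hs h4 hp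
          (le_max_right _ _) (le_max_right _ _)
          (fun s t => (hL s t).trans
            (mul_le_mul_of_nonneg_right (le_max_left _ _) (by positivity)))
          (fun z r hr => (hΛ z r hr).trans (ENNReal.ofReal_le_ofReal
            (mul_le_mul_of_nonneg_right (le_max_left _ _) (by positivity)))) E h5
        have h8 : 0 ≤ 1 - (4 / 7 - η) * (7 / 4 - η - (F + η)) := by linarith
        have h7' : μH[((Real.toNNReal (1 - (4 / 7 - η) * (7 / 4 - η - (F + η))) : ℝ≥0) : ℝ)] E ≠ ∞ := by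
          rwa [Real.coe_toNNReal _ h8]
        exact dimH_le_of_hausdorffMeasure_ne_top h7'
      have hlim : Tendsto (fun η : ℝ => ENNReal.ofReal (1 - (4 / 7 - η) * (7 / 4 - η - (F + η))))
          (𝓝[>] (0 : ℝ)) (𝓝 (ENNReal.ofReal (1 - (4 / 7 - 0) * (7 / 4 - 0 - (F + 0))))) := by
        apply ENNReal.tendsto_ofReal
        have : Continuous fun η : ℝ => 1 - (4 / 7 - η) * (7 / 4 - η - (F + η)) := by fun_prop
        exact (this.tendsto 0).mono_left nhdsWithin_le_nhds
      have hev : ∀ᶠ η : ℝ in 𝓝[>] (0 : ℝ),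
          dimH E ≤ ENNReal.ofReal (1 - (4 / 7 - η) * (7 / 4 - η - (F + η))) := by
        have h10 : (0 : ℝ) < min (4 / 7) ((7 / 4 - F) / 2) := by
          apply lt_min (by norm_num); linarith
        filter_upwards [Ioo_mem_nhdsGT h10] with η hη
        have h11 := hη.2.trans_le (min_le_left _ _)
        have h12 := hη.2.trans_le (min_le_right _ _)
        exact key η hη.1 h11 (by linarith)
      have h13 := ge_of_tendsto hlim hev
      calc (7 / 4 : ℝ≥0∞) * dimH E
          ≤ ENNReal.ofReal (7 / 4) * ENNReal.ofReal (1 - (4 / 7 - 0) * (7 / 4 - 0 - (F + 0))) := by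
            rw [h74]; exact mul_le_mul_right h13 _
        _ = dimH (f '' E) := by
            rw [hFE, ← ENNReal.ofReal_mul (by norm_num)]
            congr 1
            ring

end H443U.Unif
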